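import Pool.Agent.Helper58.CP.Defs

/-!
# The triangulation obtained from a simple planar map

For every dart `d` there is a new vertex `x_d`; the dart `d` with `p = vt d`, `q = vt (opp d)`, face `f`
and next dart `φ d` of the face gives the three triangles `(p, q, x_d)`, `(q, x_{φ d}, x_d)` and
`(f, x_d, x_{φ d})`.
-/

namespace QR33

open CP

noncomputable section

/-- The nine corners: three triangles `a`, `b`, `c`. -/
inductive C9 | a0 | a1 | a2 | b0 | b1 | b2 | c0 | c1 | c2
  deriving DecidableEq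

instance : Fintype C9 where
  elems := {.a0, .a1, .a2, .b0, .b1, .b2, .c0, .c1, .c2}
  complete := by intro x; cases x <;> decide

/-- The three triangles. -/
inductive C3 | a | b | c
  deriving DecidableEq

instance : Fintype C3 where
  elems := {.a, .b, .c}
  complete := by intro x; cases x <;> decide

theorem card_C9 : Fintype.card C9 = 9 := rfl

theorem card_C3 : Fintype.card C3 = 3 := rfl

/-- Next corner. -/
def nx : C9 → C9
  | .a0 => .a1
  | .a1 => .a2
  | .a2 => .a0
  | .b0 => .b1
  | .b1 => .b2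
  | .b2 => .b0
  | .c0 => .c1
  | .c1 => .c2
  | .c2 => .c0

/-- Triangle of a corner. -/
def tr : C9 → C3
  | .a0 => .a
  | .a1 => .a
  | .a2 => .a
  | .b0 => .b
  | .b1 => .b
  | .b2 => .b
  | .c0 => .c
  | .c1 => .c
  | .c2 => .c

theorem nx3 (k : C9) : nx (nx (nx k)) = k := by cases k <;> rfl

theorem tr_nx (k : C9) : tr (nx k) = tr k := by cases k <;> rfl

theorem tr_fib (k k' : C9) (h : tr k' = tr k) : k' = k ∨ k' = nx k ∨ k' = nx (nx k) := by
  revert h; revert k k'; decide

variable {D V F : Type} [Fintype D] [Fintype V] [Fintype F] (m : CP.LM D V F)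

theorem face_eq (d : D) : m.face d = m.rot (m.opp d) := rfl

theorem vt_face (d : D) : m.vt (m.face d) = m.vt (m.opp d) := m.vt_rot _

theorem fc_symm (d : D) : m.fc (m.face.symm d) = m.fc d := by
  have h := m.fc_face (m.face.symm d)
  have h2 : m.rot (m.opp (m.face.symm d)) = d := by
    rw [← face_eq]; exact Equiv.apply_symm_apply _ _
  rw [h2] at h
  exact h.symm

/-- Reversal in the triangulation. -/
def op9 : D × C9 → D × C9
  | (d, .a0) => (m.opp d, .a0)
  | (d, .a1) => (d, .b2)
  | (d, .a2) => (m.face.symm d, .b0)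
  | (d, .b0) => (m.face d, .a2)
  | (d, .b1) => (d, .c1)
  | (d, .b2) => (d, .a1)
  | (d, .c0) => (m.face.symm d, .c2)
  | (d, .c1) => (d, .b1)
  | (d, .c2) => (m.face d, .c0)

theorem op9_op9 (e : D × C9) : op9 m (op9 m e) = e := by
  obtain ⟨d, k⟩ := e
  cases k <;> simp [op9, m.opp_opp]

/-- Reversal as a permutation. -/
def opT : Equiv.Perm (D × C9) := ⟨op9 m, op9 m, op9_op9 m, op9_op9 m⟩

/-- The face permutation. -/
def faT (D : Type) : Equiv.Perm (D × C9) where
  toFun e := (e.1, nx e.2)
  invFun e := (e.1, nx (nx e.2))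
  left_inv e := by simp [nx3]
  right_inv e := by simp [nx3]

/-- The vertex of a corner. -/
def vt9 : D × C9 → V ⊕ (D ⊕ F)
  | (d, .a0) => Sum.inl (m.vt d)
  | (d, .a1) => Sum.inl (m.vt (m.opp d))
  | (d, .a2) => Sum.inr (Sum.inl d)
  | (d, .b0) => Sum.inl (m.vt (m.opp d))
  | (d, .b1) => Sum.inr (Sum.inl (m.face d))
  | (d, .b2) => Sum.inr (Sum.inl d)
  | (d, .c0) => Sum.inr (Sum.inr (m.fc d))
  | (d, .c1) => Sum.inr (Sum.inl d)
  | (d, .c2) => Sum.inr (Sum.inl (m.face d))

theorem vt9_op (e : D × C9) : vt9 m (faT D (op9 m e)) = vt9 m e := by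
  obtain ⟨d, k⟩ := e
  cases k <;> simp [faT, op9, vt9, nx, m.opp_opp, vt_face, fc_symm]

/-- The triangulation. -/
def triT : CP.LM (D × C9) (V ⊕ (D ⊕ F)) (D × C3) where
  rot := (opT m).trans (faT D)
  opp := opT m
  opp_opp := op9_op9 m
  opp_ne := by
    intro e
    obtain ⟨d, k⟩ := e
    cases k <;> simp [opT, op9, m.opp_ne]
  vt := vt9 m
  fc := fun e => (e.1, tr e.2)
  vt_rot := vt9_op m
  fc_face := by
    intro e
    show ((faT D (op9 m (op9 m e))).1, tr (faT D (op9 m (op9 m e))).2) = (e.1, tr e.2)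
    rw [op9_op9]
    simp [faT, tr_nx]
  vt_surj := by
    rintro (v | d | f)
    · obtain ⟨d, hd⟩ := m.vt_surj v
      exact ⟨(d, .a0), by simp [vt9, hd]⟩
    · exact ⟨(d, .a2), rfl⟩
    · obtain ⟨d, hd⟩ := m.fc_surj f
      exact ⟨(d, .c0), by simp [vt9, hd]⟩
  fc_surj := by
    rintro ⟨d, k⟩
    cases k
    · exact ⟨(d, .a0), rfl⟩
    · exact ⟨(d, .b0), rfl⟩
    · exact ⟨(d, .c0), rfl⟩
  ne := by
    obtain ⟨d⟩ := m.ne
    exact ⟨(d, .a0)⟩
  conn := by
    intro S hS hrot hopp
    have hf : ∀ e ∈ S, (e.1, nx e.2) ∈ S := by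
      intro e he
      have h1 := hrot _ (hopp e he)
      have h2 : (opT m).trans (faT D) (opT m e) = (e.1, nx e.2) := by
        show faT D (op9 m (op9 m e)) = _
        rw [op9_op9]; rfl
      rw [h2] at h1
      exact h1
    have hab : ∀ d k, (d, k) ∈ S → ∀ k', tr k' = tr k → (d, k') ∈ S := by
      intro d k hk k' hk'
      rcases tr_fib k k' hk' with h | h | h
      · rw [h]; exact hk
      · rw [h]; exact hf _ hk
      · rw [h]; exact hf _ (hf _ hk)
    have hall : ∀ d k, (d, k) ∈ S → ∀ k', (d, k') ∈ S := by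
      intro d k hk
      have hb1 : (d, C9.b0) ∈ S := by
        rcases hkk : tr k with _ | _ | _
        · exact hab d .b2 (hopp (d, .a1) (hab d k hk .a1 hkk.symm)) .b0 rfl
        · exact hab d k hk .b0 hkk.symm
        · exact hab d .b1 (hopp (d, .c1) (hab d k hk .c1 hkk.symm)) .b0 rfl
      have ha : (d, C9.a1) ∈ S := hopp (d, .b2) (hab d .b0 hb1 .b2 rfl)
      have hc : (d, C9.c1) ∈ S := hopp (d, .b1) (hab d .b0 hb1 .b1 rfl)
      intro k'
      rcases hkk : tr k' with _ | _ | _
      · exact hab d .a1 ha k' hkk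
      · exact hab d .b0 hb1 k' hkk
      · exact hab d .c1 hc k' hkk
    have h1 : {d : D | (d, C9.a0) ∈ S} = Set.univ := by
      have hop : ∀ d, (d, C9.a0) ∈ S → (m.opp d, C9.a0) ∈ S := fun d hd => hopp (d, .a0) hd
      have hfa : ∀ d, (d, C9.a0) ∈ S → (m.face d, C9.a0) ∈ S := by
        intro d hd
        exact hall _ _ (hopp (d, .b0) (hall d _ hd .b0)) _
      apply m.conn
      · obtain ⟨⟨d, k⟩, hd⟩ := hS
        exact ⟨d, hall d k hd _⟩
      · intro d hd
        have h2 := hfa _ (hop d hd)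
        rw [face_eq, m.opp_opp] at h2
        exact h2
      · exact hop
    ext ⟨d, k⟩
    have h2 : d ∈ {d : D | (d, C9.a0) ∈ S} := by rw [h1]; trivial
    exact ⟨fun _ => trivial, fun _ => hall d _ h2 k⟩
  euler := by
    have h := m.euler
    simp only [Fintype.card_sum, Fintype.card_prod, card_C9, card_C3]
    omega

theorem triT_face (e : D × C9) : (triT m).face e = (e.1, nx e.2) := by
  show faT D (op9 m (op9 m e)) = _
  rw [op9_op9]; rfl

theorem triT_vt (e : D × C9) : (triT m).vt e = vt9 m e := rfl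

theorem triT_opp (e : D × C9) : (triT m).vt ((triT m).opp e) = vt9 m (e.1, nx e.2) := by
  have h := (triT m).vt_rot ((triT m).opp e)
  rw [← h]
  show vt9 m (faT D (op9 m (op9 m e))) = _
  rw [op9_op9]; rfl

theorem triT_Tri (h1 : ∀ d, m.vt d ≠ m.vt (m.opp d))
    (h2 : ∀ d d', m.vt d = m.vt d' → m.vt (m.opp d) = m.vt (m.opp d') → d = d')
    (h3 : ∀ d, m.face (m.face d) ≠ d) : (triT m).Tri where
  f3 := by
    intro e
    rw [triT_face, triT_face, triT_face]
    simp [nx3]
  fib := by
    intro e e' h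
    obtain ⟨d, k⟩ := e
    obtain ⟨d', k'⟩ := e'
    have h5 : (d', tr k') = (d, tr k) := h
    rw [Prod.mk.injEq] at h5
    rw [triT_face, triT_face]
    rcases tr_fib k k' h5.2 with h6 | h6 | h6
    · left; rw [h5.1, h6]
    · right; left; rw [h5.1, h6]
    · right; right; rw [h5.1, h6]
  noloop := by
    have h4 : ∀ d, m.face d ≠ d := by
      intro d hd
      apply h3 d
      rw [hd, hd]
    intro e
    rw [triT_opp, triT_vt]
    obtain ⟨d, k⟩ := e
    cases k
    · simp only [vt9, nx, ne_eq, Sum.inl.injEq]; exact h1 d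
    all_goals simp only [vt9, nx, ne_eq, Sum.inr.injEq, Sum.inl.injEq, reduceCtorEq,
      not_false_eq_true]
    · exact h4 d
    · exact fun h => h4 d h.symm
  inj := by
    intro e e'
    rw [triT_opp, triT_vt, triT_opp, triT_vt]
    obtain ⟨d, k⟩ := e
    obtain ⟨d', k'⟩ := e'
    cases k <;> cases k' <;>
      simp only [vt9, nx, Sum.inr.injEq, Sum.inl.injEq, reduceCtorEq, false_imp_iff,
        imp_false, not_false_eq_true, Prod.mk.injEq, and_true, and_false, imp_self,
        EmbeddingLike.apply_eq_iff_eq, implies_true]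
    · exact h2 d d'
    · intro h5 h6
      apply h1 d
      rw [h5, ← vt_face m d', ← h6]
    · exact fun h5 _ => h5
    · intro h5 h6
      rw [h5] at h6
      exact h1 d' h6
    · intro h5 h6
      apply h1 d'
      rw [← h5, ← vt_face m d, h6]
    · intro h5 h6
      apply h3 d
      rw [h5]
      exact h6.symm
    · intro h5 h6
      rw [h5] at h6
      exact h1 d' h6.symm
    · exact fun h5 _ => h5
    · intro h5 h6
      apply h3 d'
      rw [← h5]
      exact h6
    · exact fun h5 _ => h5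

open Classical in
theorem triT_dg (v : V) : (triT m).dg (Sum.inl v) = 3 * m.dg v := by
  unfold CP.LM.dg
  have h0 : (Finset.univ.filter (fun d => m.vt (m.opp d) = v)).card =
      (Finset.univ.filter (fun d => m.vt d = v)).card := by
    apply Finset.card_bij (fun d _ => m.opp d)
    · intro d hd
      simpa using hd
    · intro d _ d' _ h
      exact m.opp.injective h
    · intro d hd
      refine ⟨m.opp d, ?_, m.opp_opp d⟩
      simpa [m.opp_opp] using hd
  trans (((Finset.univ.filter (fun d => m.vt d = v)) ×ˢ {C9.a0}) ∪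
      ((Finset.univ.filter (fun d => m.vt (m.opp d) = v)) ×ˢ {C9.a1, C9.b0})).card
  · congr 1
    ext ⟨d, k⟩
    simp only [Finset.mem_filter, Finset.mem_univ, true_and, Finset.mem_union,
      Finset.mem_product, Finset.mem_singleton, Finset.mem_insert]
    cases k <;> simp [triT_vt, vt9]
  rw [Finset.card_union_of_disjoint, Finset.card_product, Finset.card_product, h0]
  · have h2 : ({C9.a1, C9.b0} : Finset C9).card = 2 := rfl
    rw [h2, Finset.card_singleton]
    ring
  · rw [Finset.disjoint_left]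
    rintro ⟨d, k⟩ hd hd'
    simp only [Finset.mem_product, Finset.mem_singleton, Finset.mem_insert] at hd hd'
    rw [hd.2] at hd'
    rcases hd'.2 with h | h <;> cases h

theorem st_TRI : CP.ST_TRI := by
  intro D V F _ _ _ m h1 h2 h3
  obtain ⟨d0⟩ := m.ne
  refine ⟨D × C9, V ⊕ (D ⊕ F), D × C3, inferInstance, inferInstance, inferInstance, triT m, Sum.inl,
    (d0, .c0), triT_Tri m h1 h2 h3, Sum.inl_injective, ?_, ?_, fun v => triT_dg m v⟩
  · intro v hv
    rcases hv with h | h | h
    · cases h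
    · rw [CP.LM.v1, triT_face] at h
      cases h
    · rw [CP.LM.v2, triT_face, triT_face] at h
      cases h
  · intro d
    refine ⟨(d, .a0), rfl, ?_⟩
    rw [triT_opp]
    rfl

end

end QR33
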