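import Pool.Agent.Helper33.QR.Tree3
import Pool.Agent.Helper33.QR.Tri

/-!
# Packing of the tree blow-up
-/

namespace QR33

open QR

noncomputable section

/-- Conversion to the labelled maps of `CP`. -/
def toCP {E V F : Type} [Fintype E] [Fintype V] [Fintype F] (M : LM E V F) (h0 : Nonempty E) :
    CP.LM E V F where
  rot := Equiv.ofBijective (fun e => M.ph (M.op e)) (Finite.injective_iff_bijective.1
    (M.ph_inj.comp (Function.LeftInverse.injective M.op_op)))
  opp := ⟨M.op, M.op, M.op_op, M.op_op⟩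
  opp_opp := M.op_op
  opp_ne := by
    intro e h
    have h1 : M.op e = e := h
    exact M.ne e (by rw [h1])
  vt := M.tl
  fc := M.fc
  vt_rot := by
    intro e
    show M.tl (M.ph (M.op e)) = M.tl e
    rw [M.tl_ph, M.op_op]
  fc_face := by
    intro e
    show M.fc (M.ph (M.op (M.op e))) = M.fc e
    rw [M.op_op, M.fc_ph]
  vt_surj := M.tl_surj
  fc_surj := M.fc_surj
  ne := h0
  conn := by
    intro S hS hrot hopp
    ext e
    refine ⟨fun _ => trivial, fun _ => ?_⟩
    have h1 : ∀ e ∈ S, M.op e ∈ S := fun e he => hopp e he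
    have h2 : ∀ e ∈ S, M.ph e ∈ S := by
      intro e he
      have h3 : M.ph (M.op (M.op e)) ∈ S := hrot _ (h1 e he)
      rwa [M.op_op] at h3
    exact M.conn (fun e => e ∈ S) hS h2 h1 e
  euler := by
    have h := M.euler
    simpa only [Nat.card_eq_fintype_card] using h

theorem toCP_face {E V F : Type} [Fintype E] [Fintype V] [Fintype F] (M : LM E V F)
    (h0 : Nonempty E) (e : E) : (toCP M h0).face e = M.ph e := by
  show M.ph (M.op (M.op e)) = M.ph e
  rw [M.op_op]

open Classical in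
theorem toCP_dg {E V F : Type} [Fintype E] [Fintype V] [Fintype F] (M : LM E V F)
    (h0 : Nonempty E) (v : V) : (toCP M h0).dg v ≤ 3 := by
  have h := M.deg3 v
  rw [Nat.card_eq_fintype_card, Fintype.card_subtype] at h
  exact h

theorem pack (hP : CP.ST_PACK) : ∃ K : ℝ, 1 ≤ K ∧
    ∀ (E V F : Type) [Finite E] [Finite V] [Finite F] (M : LM E V F), Nonempty E →
    ∃ (c : V → ℂ) (r : V → ℝ), (∀ v, 0 < r v) ∧ (∀ u v, u ≠ v → r u + r v ≤ dist (c u) (c v)) ∧
      (∀ e, dist (c (M.tl e)) (c (M.tl (M.op e))) = r (M.tl e) + r (M.tl (M.op e))) ∧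
      (∀ e, r (M.tl e) ≤ K * r (M.tl (M.op e))) := by
  obtain ⟨K, hK, hP⟩ := hP 9
  refine ⟨K, hK, ?_⟩
  intro E V F _ _ _ M h0
  have := Fintype.ofFinite E
  have := Fintype.ofFinite V
  have := Fintype.ofFinite F
  obtain ⟨D2, V2, F2, i1, i2, i3, T, i, o, hT, hi, ho, he, hd⟩ :=
    st_TRI E V F (toCP M h0) M.ne M.simple (by
      intro e
      rw [toCP_face, toCP_face]
      exact M.ph2 e)
  obtain ⟨z, R, hR, h1, h2, h3⟩ := hP D2 V2 F2 T o hT
  refine ⟨fun v => z (i v), fun v => R (i v), fun v => hR _, ?_, ?_, ?_⟩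
  · intro u v huv
    rw [dist_eq_norm]
    exact h1 _ _ (hi.ne huv)
  · intro e
    obtain ⟨x, hx1, hx2⟩ := he e
    have h4 := h2 x
    rw [hx1, hx2] at h4
    rw [dist_comm, dist_eq_norm]
    exact h4
  · intro e
    obtain ⟨x, hx1, hx2⟩ := he e
    have h4 := h3 x (by rw [hx1]; exact ho _) (by
      rw [hx1, hd]
      have := toCP_dg M h0 ((toCP M h0).vt e)
      omega)
    rw [hx1, hx2] at h4
    exact h4

end

end QR33
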