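import Pool.Agent.Helper33.QR.Dm

/-!
# Disc models of quadrangulations
-/

namespace QR33

open QR

noncomputable section

open Classical

set_option linter.unusedSectionVars false

variable {D : Type} [Fintype D] (m : RMap D)

/-- Parent map. -/
def parN (x : Node m) : Node m := if h : x.i < ht m x.v then par m ⟨x, h⟩ else x

/-- Depth. -/
def dep (x : Node m) : ℕ := ht m x.v - x.i

/-- Edges between leaves. -/
def ee (x y : Node m) : ℕ := ∑ d : D, if leaf m d = x ∧ leaf m (m.opp d) = y then 1 else 0

theorem parN_v (x : Node m) : (parN m x).v = x.v := by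
  unfold parN
  split_ifs with h
  · rfl
  · rfl

theorem parN_root (v : m.Vert) : parN m (root m v) = root m v := by
  unfold parN
  rw [dif_neg]
  simp [root]

theorem dep_zero (x : Node m) : dep m x = 0 ↔ x = root m x.v := by
  unfold dep
  constructor
  · intro h
    exact root_eq m x (by omega)
  · intro h
    have h1 : x.i = ht m x.v := by
      have := congrArg Node.i h
      exact this
    omega

theorem dep_par (x : Node m) (h : dep m x ≠ 0) : dep m (parN m x) + 1 = dep m x := by
  unfold dep at h
  have h1 : x.i < ht m x.v := by omega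
  unfold parN
  rw [dif_pos h1]
  show ht m x.v - (x.i + 1) + 1 = ht m x.v - x.i
  omega

theorem ee_symm (x y : Node m) : ee m x y = ee m y x := by
  unfold ee
  rw [← Equiv.sum_comp m.opp]
  apply Finset.sum_congr rfl
  intro d _
  rw [m.opp_opp]
  simp only [and_comm]

theorem ee_ne (x y : Node m) (h : ee m x y ≠ 0) : ∃ d, leaf m d = x ∧ leaf m (m.opp d) = y := by
  by_contra hc
  push Not at hc
  apply h
  unfold ee
  apply Finset.sum_eq_zero
  intro d _
  rw [if_neg]
  intro h1
  exact hc d h1.1 h1.2

theorem sum_eqv {ι κ : Type} [Fintype ι] [Fintype κ] (ε : ι ≃ κ) (P : ι → Prop) [DecidablePred P]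
    (f : ι → ℕ) : ∑ a with P (ε.symm a), f (ε.symm a) = ∑ x with P x, f x := by
  rw [Finset.sum_filter, Finset.sum_filter]
  exact Equiv.sum_comp ε.symm (fun x => if P x then f x else 0)

theorem sum_ite_one {ι : Type} [Fintype ι] (P : ι → Prop) [DecidablePred P] :
    ∑ a : ι, (if P a then 1 else 0) = Nat.card {a // P a} := by
  rw [Nat.card_eq_fintype_card, Fintype.card_subtype, Finset.card_filter]

theorem ee_sum [Fintype (Node m)] (u v : m.Vert) :
    ∑ x : Node m with x.v = u, ∑ y : Node m with y.v = v, ee m x y = m.mult u v := by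
  have h1 : ∀ x : Node m, ∑ y : Node m with y.v = v, ee m x y =
      ∑ d : D, if leaf m d = x ∧ m.tail (m.opp d) = v then 1 else 0 := by
    intro x
    unfold ee
    rw [Finset.sum_comm]
    apply Finset.sum_congr rfl
    intro d _
    by_cases h2 : leaf m d = x
    · by_cases h3 : m.tail (m.opp d) = v
      · rw [if_pos ⟨h2, h3⟩]
        rw [Finset.sum_eq_single (leaf m (m.opp d))]
        · rw [if_pos ⟨h2, rfl⟩]
        · intro b _ hb
          rw [if_neg]
          exact fun h => hb h.2.symm
        · intro hb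
          exfalso
          apply hb
          rw [Finset.mem_filter]
          exact ⟨Finset.mem_univ _, h3⟩
      · rw [if_neg (fun h => h3 h.2)]
        apply Finset.sum_eq_zero
        intro b hb
        rw [Finset.mem_filter] at hb
        rw [if_neg]
        intro h
        apply h3
        rw [← hb.2, ← h.2]
        rfl
    · rw [if_neg (fun h => h2 h.1)]
      apply Finset.sum_eq_zero
      intro b _
      rw [if_neg (fun h => h2 h.1)]
  rw [Finset.sum_congr rfl (fun x _ => h1 x), Finset.sum_comm]
  unfold RMap.mult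
  rw [← sum_ite_one]
  apply Finset.sum_congr rfl
  intro d _
  by_cases h3 : m.tail (m.opp d) = v
  · by_cases h2 : m.tail d = u
    · rw [if_pos ⟨h2, h3⟩]
      rw [Finset.sum_eq_single (leaf m d)]
      · rw [if_pos ⟨rfl, h3⟩]
      · intro b _ hb
        rw [if_neg]
        exact fun h => hb h.1.symm
      · intro hb
        exfalso
        apply hb
        rw [Finset.mem_filter]
        exact ⟨Finset.mem_univ _, h2⟩
    · rw [if_neg (fun h => h2 h.1)]
      apply Finset.sum_eq_zero
      intro b hb
      rw [Finset.mem_filter] at hb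
      rw [if_neg]
      intro h
      apply h2
      rw [← hb.2, ← h.1]
      rfl
  · rw [if_neg (fun h => h3 h.2)]
    apply Finset.sum_eq_zero
    intro b _
    rw [if_neg (fun h => h3 h.2)]

theorem ee_deg [Fintype (Node m)] (x : Node m) :
    ∑ y : Node m, ee m x y = ∑ d : D, if leaf m d = x then 1 else 0 := by
  unfold ee
  rw [Finset.sum_comm]
  apply Finset.sum_congr rfl
  intro d _
  by_cases h2 : leaf m d = x
  · rw [if_pos h2]
    rw [Finset.sum_eq_single (leaf m (m.opp d))]
    · rw [if_pos ⟨h2, rfl⟩]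
    · intro b _ hb
      rw [if_neg]
      exact fun h => hb h.2.symm
    · intro hb
      exact absurd (Finset.mem_univ _) hb
  · rw [if_neg h2]
    apply Finset.sum_eq_zero
    intro b _
    rw [if_neg (fun h => h2 h.1)]

theorem deg_kk (v : m.Vert) : SPR.deg m.mult v = kk m v := by
  unfold SPR.deg
  have := Fintype.ofFinite m.Vert
  rw [finsum_eq_sum_of_fintype]
  have h1 : ∀ y, m.mult v y = ∑ d : D, if m.tail d = v ∧ m.tail (m.opp d) = y then 1 else 0 := by
    intro y
    rw [sum_ite_one]
    rfl
  rw [Finset.sum_congr rfl (fun y _ => h1 y), Finset.sum_comm, ← card_tail m v, ← sum_ite_one]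
  apply Finset.sum_congr rfl
  intro d _
  by_cases h2 : m.tail d = v
  · rw [if_pos h2, Finset.sum_eq_single (m.tail (m.opp d))]
    · rw [if_pos ⟨h2, rfl⟩]
    · intro b _ hb
      rw [if_neg]
      exact fun h => hb h.2.symm
    · intro hb
      exact absurd (Finset.mem_univ _) hb
  · rw [if_neg h2]
    apply Finset.sum_eq_zero
    intro b _
    rw [if_neg (fun h => h2 h.1)]

theorem two_ht (v : m.Vert) : 2 ^ ht m v ≤ 2 * kk m v := by
  rcases Nat.eq_zero_or_pos (ht m v) with h | h
  · rw [h]
    have := kk_pos m v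
    omega
  · have h1 := lt_kk m v (i := ht m v - 1) (by omega)
    have h2 : 2 ^ ht m v = 2 * 2 ^ (ht m v - 1) := by
      conv_lhs => rw [show ht m v = (ht m v - 1) + 1 by omega]
      rw [pow_succ]; ring
    omega

theorem odd_pow_inj {i i' j j' : ℕ} (h : (2 * j + 1) * 2 ^ i = (2 * j' + 1) * 2 ^ i') :
    i = i' ∧ j = j' := by
  have key : ∀ {i i' j j' : ℕ}, i < i' → (2 * j + 1) * 2 ^ i = (2 * j' + 1) * 2 ^ i' → False := by
    intro i i' j j' hi h
    obtain ⟨k, hk⟩ := Nat.exists_eq_add_of_lt hi
    rw [hk, show i + k + 1 = (k + 1) + i by ring, pow_add _ (k + 1) i, ← mul_assoc] at h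
    have h1 := Nat.eq_of_mul_eq_mul_right (by positivity) h
    rw [pow_succ] at h1
    have h2 : (2 * j' + 1) * (2 ^ k * 2) = 2 * ((2 * j' + 1) * 2 ^ k) := by ring
    omega
  rcases lt_trichotomy i i' with h1 | h1 | h1
  · exact absurd h (fun h => key h1 h)
  · subst h1
    have h2 := Nat.eq_of_mul_eq_mul_right (by positivity) h
    exact ⟨rfl, by omega⟩
  · exact absurd h (fun h => key h1 h.symm)

theorem size' [Fintype (Node m)] (v : m.Vert) :
    (Finset.univ.filter (fun x : Node m => x.v = v)).card ≤ 4 * kk m v := by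
  have h : (Finset.univ.filter (fun x : Node m => x.v = v)).card ≤
      (Finset.range (4 * kk m v)).card := by
    apply Finset.card_le_card_of_injOn (fun x => (2 * x.j + 1) * 2 ^ x.i)
    · intro x hx
      have hx1 : x.v = v := by simpa using hx
      have h1 := x.hj
      have h2 := two_ht m x.v
      have h3 : 2 ^ x.i ≤ 2 ^ ht m x.v := Nat.pow_le_pow_right (by norm_num) x.hi
      rw [hx1] at h1 h2 h3
      simp only [Finset.coe_range, Set.mem_Iio]
      calc (2 * x.j + 1) * 2 ^ x.i = 2 * (x.j * 2 ^ x.i) + 2 ^ x.i := by ring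
        _ < 4 * kk m v := by omega
    · intro x hx y hy hxy
      have hx1 : x.v = v := by simpa using hx
      have hy1 : y.v = v := by simpa using hy
      have := odd_pow_inj hxy
      ext
      · rw [hx1, hy1]
      · exact this.1
      · exact this.2
  simpa using h

theorem desc (d : D) (n : ℕ) : ((parN m)^[n] (leaf m d)).v = m.tail d ∧
    idx m d / 2 ^ ((parN m)^[n] (leaf m d)).i = ((parN m)^[n] (leaf m d)).j := by
  induction n with
  | zero =>
    refine ⟨rfl, ?_⟩
    show idx m d / 2 ^ 0 = idx m d
    simp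
  | succ n ih =>
    rw [Function.iterate_succ_apply']
    set y := (parN m)^[n] (leaf m d) with hy
    unfold parN
    split_ifs with h
    · refine ⟨ih.1, ?_⟩
      show idx m d / 2 ^ (y.i + 1) = y.j / 2
      rw [← ih.2, pow_succ, Nat.div_div_eq_div_mul]
    · exact ih

theorem bal' [Fintype (Node m)] (x : Node m) :
    (∑ x' : Node m with (∃ n, (parN m)^[n] x' = x), ∑ y, ee m x' y) * 2 ^ dep m x ≤
      2 * kk m x.v := by
  have h1 : ∑ x' : Node m with (∃ n, (parN m)^[n] x' = x), ∑ y, ee m x' y =
      (Finset.univ.filter (fun d : D => ∃ n, (parN m)^[n] (leaf m d) = x)).card := by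
    rw [Finset.sum_congr rfl (fun x' _ => ee_deg m x'), Finset.sum_comm, Finset.card_filter]
    apply Finset.sum_congr rfl
    intro d _
    by_cases h2 : ∃ n, (parN m)^[n] (leaf m d) = x
    · rw [if_pos h2, Finset.sum_eq_single (leaf m d)]
      · rw [if_pos rfl]
      · intro b _ hb
        rw [if_neg (fun h => hb h.symm)]
      · intro hb
        exfalso
        apply hb
        rw [Finset.mem_filter]
        exact ⟨Finset.mem_univ _, h2⟩
    · rw [if_neg h2]
      apply Finset.sum_eq_zero
      intro b hb
      rw [Finset.mem_filter] at hb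
      rw [if_neg]
      intro h
      apply h2
      rw [h]
      exact hb.2
  rw [h1]
  have h2 : (Finset.univ.filter (fun d : D => ∃ n, (parN m)^[n] (leaf m d) = x)).card ≤
      (Finset.range (2 ^ x.i)).card := by
    apply Finset.card_le_card_of_injOn (fun d => idx m d % 2 ^ x.i)
    · intro d _
      simp only [Finset.coe_range, Set.mem_Iio]
      exact Nat.mod_lt _ (by positivity)
    · intro d hd d' hd' hdd
      have hd1 : ∃ n, (parN m)^[n] (leaf m d) = x := by simpa using hd
      have hd1' : ∃ n, (parN m)^[n] (leaf m d') = x := by simpa using hd'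
      obtain ⟨n, hn⟩ := hd1
      obtain ⟨n', hn'⟩ := hd1'
      have g := desc m d n
      have g' := desc m d' n'
      rw [hn] at g
      rw [hn'] at g'
      apply idx_inj m
      · rw [← g.1, ← g'.1]
      · rw [← Nat.div_add_mod (idx m d) (2 ^ x.i), ← Nat.div_add_mod (idx m d') (2 ^ x.i), g.2, g'.2]
        rw [show idx m d % 2 ^ x.i = idx m d' % 2 ^ x.i from hdd]
  rw [Finset.card_range] at h2
  calc _ ≤ 2 ^ x.i * 2 ^ dep m x := Nat.mul_le_mul_right _ h2
    _ = 2 ^ ht m x.v := by
      rw [← pow_add]
      congr 1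
      unfold dep
      have := x.hi
      omega
    _ ≤ 2 * kk m x.v := two_ht m x.v

/-- The disc model from a packing of the tree blow-up. -/
theorem dm_of [Fintype (Node m)] {K : ℝ} (hK : 1 ≤ K) (c : Node m → ℂ) (r : Node m → ℝ)
    (h0 : ∀ x, 0 < r x) (h1 : ∀ x y, x ≠ y → r x + r y ≤ dist (c x) (c y))
    (h2 : ∀ e : DD m, dist (c (tl' m e)) (c (tl' m (op' m e))) = r (tl' m e) + r (tl' m (op' m e)))
    (h3 : ∀ e : DD m, r (tl' m e) ≤ K * r (tl' m (op' m e))) :
    Nonempty (SPR.DiscModel (K + 4) m.mult) := by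
  have hK4 : ∀ x, K * r x ≤ (K + 4) * r x := by
    intro x
    have := h0 x
    nlinarith
  have h4 : ∀ e : DD m, dist (c (tl' m e)) (c (tl' m (op' m e))) =
      r (tl' m e) + r (tl' m (op' m e)) ∧ r (tl' m e) ≤ (K + 4) * r (tl' m (op' m e)) ∧
      r (tl' m (op' m e)) ≤ (K + 4) * r (tl' m e) := by
    intro e
    refine ⟨h2 e, (h3 e).trans (hK4 _), ?_⟩
    have h5 := h3 (op' m e)
    rw [op_op'] at h5
    exact h5.trans (hK4 _)
  let ε := Fintype.equivFin (Node m)
  refine ⟨{
    N := Fintype.card (Node m)
    ctr := fun a => c (ε.symm a)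
    rad := fun a => r (ε.symm a)
    own := fun a => (ε.symm a).v
    root := fun v => ε (root m v)
    par := fun a => ε (parN m (ε.symm a))
    depth := fun a => dep m (ε.symm a)
    e := fun a b => ee m (ε.symm a) (ε.symm b)
    rad_pos := fun a => h0 _
    disj := fun a b hab => h1 _ _ (ε.symm.injective.ne hab)
    own_root := ?_
    par_root := ?_
    depth_eq_zero := ?_
    own_par := ?_
    depth_par := ?_
    par_touch := ?_
    e_symm := fun a b => ee_symm m _ _
    e_touch := ?_
    e_sum := ?_
    size := ?_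
    balance := ?_ }⟩
  · intro v
    simp only [Equiv.symm_apply_apply]
    rfl
  · intro v
    simp only [Equiv.symm_apply_apply, parN_root]
  · intro a
    rw [dep_zero]
    exact Equiv.symm_apply_eq ε
  · intro a
    simp only [Equiv.symm_apply_apply, parN_v]
  · intro a ha
    simp only [Equiv.symm_apply_apply]
    exact dep_par m _ ha
  · intro a ha
    simp only [Equiv.symm_apply_apply]
    set x := ε.symm a with hx
    have h5 : x.i < ht m x.v := by
      unfold dep at ha
      omega
    have h6 : parN m x = par m ⟨x, h5⟩ := by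
      unfold parN
      rw [dif_pos h5]
    rw [h6]
    exact h4 (Sum.inr (⟨x, h5⟩, true))
  · intro a b hab
    obtain ⟨d, hd1, hd2⟩ := ee_ne m _ _ hab
    have h5 := h4 (Sum.inl d)
    simp only [tl', op', hd1, hd2] at h5
    exact h5
  · intro u v
    have h5 : ∀ x : Node m, ∑ b with (ε.symm b).v = v, ee m x (ε.symm b) =
        ∑ y : Node m with y.v = v, ee m x y :=
      fun x => sum_eqv ε (fun y => y.v = v) (fun y => ee m x y)
    rw [← ee_sum m u v, ← sum_eqv ε (fun x => x.v = u)
      (fun x => ∑ y : Node m with y.v = v, ee m x y)]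
    refine Finset.sum_congr (by ext; simp) (fun a _ => ?_)
    exact (Finset.sum_congr (by ext; simp) (fun _ _ => rfl)).trans (h5 (ε.symm a))
  · intro v
    rw [deg_kk]
    have h6 := size' m v
    refine le_trans (le_of_eq
      (?_ : _ = ((Finset.univ.filter (fun x : Node m => x.v = v)).card : ℝ))) ?_
    · congr 1
      apply Finset.card_bij (fun a _ => ε.symm a)
      · intro a ha
        simpa using ha
      · intro a _ b _ hab
        exact ε.symm.injective hab
      · intro x hx
        refine ⟨ε x, ?_, by simp⟩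
        simpa using hx
    · have h7 : ((Finset.univ.filter (fun x : Node m => x.v = v)).card : ℝ) ≤ 4 * (kk m v : ℝ) := by
        exact_mod_cast h6
      have h8 : (0 : ℝ) ≤ kk m v := Nat.cast_nonneg _
      nlinarith
  · intro a
    have h5 : ∀ x : Node m, ∑ b, ee m x (ε.symm b) = ∑ y : Node m, ee m x y :=
      fun x => Equiv.sum_comp ε.symm (fun y => ee m x y)
    have h6 : ∀ (n : ℕ) (b : Fin (Fintype.card (Node m))),
        (fun a => ε (parN m (ε.symm a)))^[n] b = ε ((parN m)^[n] (ε.symm b)) := by
      intro n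
      induction n with
      | zero => intro b; simp
      | succ n ih =>
        intro b
        rw [Function.iterate_succ_apply, ih, Function.iterate_succ_apply]
        simp
    have h7 : ∀ b, (∃ n, (fun a => ε (parN m (ε.symm a)))^[n] b = a) ↔
        (∃ n, (parN m)^[n] (ε.symm b) = ε.symm a) := by
      intro b
      constructor
      · rintro ⟨n, hn⟩
        refine ⟨n, ?_⟩
        rw [h6] at hn
        rw [← hn]
        simp
      · rintro ⟨n, hn⟩
        refine ⟨n, ?_⟩
        rw [h6, hn]
        simp
    have h8 : ∑ b with (∃ n, (fun a => ε (parN m (ε.symm a)))^[n] b = a),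
        ∑ b', ee m (ε.symm b) (ε.symm b') =
        ∑ x : Node m with (∃ n, (parN m)^[n] x = ε.symm a), ∑ y : Node m, ee m x y := by
      rw [← sum_eqv ε (fun x => ∃ n, (parN m)^[n] x = ε.symm a) (fun x => ∑ y : Node m, ee m x y)]
      rw [Finset.filter_congr (fun b _ => h7 b)]
      exact Finset.sum_congr rfl (fun b _ => h5 (ε.symm b))
    rw [h8, deg_kk]
    have h9 := bal' m (ε.symm a)
    have h10 : ((∑ x : Node m with (∃ n, (parN m)^[n] x = ε.symm a), ∑ y : Node m, ee m x y : ℕ) : ℝ)
        * 2 ^ dep m (ε.symm a) ≤ 2 * (kk m (ε.symm a).v : ℝ) := by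
      exact_mod_cast h9
    have h11 : (0 : ℝ) ≤ kk m (ε.symm a).v := Nat.cast_nonneg _
    nlinarith

theorem st_DM (hP : CP.ST_PACK) : QR.ST_DM := by
  obtain ⟨K, hK, hP⟩ := pack hP
  refine ⟨K + 4, by linarith, ?_⟩
  intro D _ m hm hf
  have hf3 : ∀ d, 3 ≤ m.fdeg d := fun d => by rw [hf d]; norm_num
  have := Fintype.ofFinite (Node m)
  obtain ⟨d0⟩ := hm.1
  obtain ⟨c, r, h0, h1, h2, h3⟩ := hP (DD m) (Node m) m.Face (lm m hm hf3) ⟨Sum.inl d0⟩
  exact dm_of m hK c r h0 h1 h2 h3

end

end QR33
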