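import Pool.Agent.Helper98.QR.Defs

/-!
# Indexing the darts around a vertex
-/

namespace QR33

open QR

noncomputable section

variable {D : Type} [Finite D] (m : RMap D)

/-- Degree of a vertex. -/
def kk (v : m.Vert) : ℕ := Function.minimalPeriod m.rot v.out

/-- The `j`-th dart at `v`. -/
def dart (v : m.Vert) (j : ℕ) : D := (m.rot)^[j] v.out

omit [Finite D] in
theorem dart_zero (v : m.Vert) : dart m v 0 = v.out := rfl

omit [Finite D] in
theorem rot_dart (v : m.Vert) (j : ℕ) : m.rot (dart m v j) = dart m v (j + 1) := by
  unfold dart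
  rw [Function.iterate_succ_apply']

theorem kk_pos (v : m.Vert) : 0 < kk m v := by
  unfold kk
  exact Function.minimalPeriod_pos_of_mem_periodicPts
    ((Function.Injective.mem_periodicPts m.rot.injective) v.out)

omit [Finite D] in
theorem dart_kk (v : m.Vert) : dart m v (kk m v) = dart m v 0 := by
  unfold dart kk
  exact Function.iterate_minimalPeriod

omit [Finite D] in
theorem dart_mod (v : m.Vert) (j : ℕ) : dart m v (j % kk m v) = dart m v j := by
  unfold dart kk
  exact Function.iterate_mod_minimalPeriod_eq

omit [Finite D] in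
theorem tail_rot (d : D) : m.tail (m.rot d) = m.tail d := by
  unfold RMap.tail
  apply Quotient.sound
  exact ⟨-1, by simp⟩

omit [Finite D] in
theorem tail_dart (v : m.Vert) (j : ℕ) : m.tail (dart m v j) = v := by
  induction j with
  | zero => rw [dart_zero]; exact Quotient.out_eq v
  | succ j ih => rw [← rot_dart, tail_rot, ih]

omit [Finite D] in
theorem dart_inj (v : m.Vert) {i j : ℕ} (hi : i < kk m v) (hj : j < kk m v)
    (h : dart m v i = dart m v j) : i = j :=
  Function.iterate_injOn_Iio_minimalPeriod hi hj h

theorem exists_idx (d : D) : ∃ j, j < kk m (m.tail d) ∧ dart m (m.tail d) j = d := by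
  have h : m.rot.SameCycle (m.tail d).out d := Quotient.exact (Quotient.out_eq (m.tail d))
  obtain ⟨n, hn⟩ := h.exists_nat_pow_eq
  refine ⟨n % kk m (m.tail d), Nat.mod_lt _ (kk_pos m _), ?_⟩
  rw [dart_mod]
  unfold dart
  rw [← Equiv.Perm.coe_pow]
  exact hn

/-- The index of a dart at its tail. -/
def idx (d : D) : ℕ := (exists_idx m d).choose

theorem idx_lt (d : D) : idx m d < kk m (m.tail d) := (exists_idx m d).choose_spec.1

theorem dart_idx (d : D) : dart m (m.tail d) (idx m d) = d := (exists_idx m d).choose_spec.2

theorem idx_dart (v : m.Vert) {j : ℕ} (hj : j < kk m v) : idx m (dart m v j) = j := by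
  have h1 := idx_lt m (dart m v j)
  have h2 := dart_idx m (dart m v j)
  rw [tail_dart] at h1 h2
  exact dart_inj m v h1 hj h2

theorem idx_inj {d d' : D} (ht : m.tail d = m.tail d') (hi : idx m d = idx m d') : d = d' := by
  rw [← dart_idx m d, ← dart_idx m d', ht, hi]

theorem idx_rot (d : D) :
    idx m (m.rot d) = if idx m d + 1 < kk m (m.tail d) then idx m d + 1 else 0 := by
  have h1 : m.rot d = dart m (m.tail d) (idx m d + 1) := by
    rw [← rot_dart, dart_idx]
  split_ifs with h
  · rw [h1, idx_dart m _ h]
  · have h2 : idx m d + 1 = kk m (m.tail d) := by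
      have := idx_lt m d
      omega
    rw [h1, h2, dart_kk, idx_dart m _ (kk_pos m _)]

/-- The darts at `v` are numbered by `0, ..., kk v - 1`. -/
def dartEquiv (v : m.Vert) : Fin (kk m v) ≃ {d : D // m.tail d = v} where
  toFun j := ⟨dart m v j, tail_dart m v j⟩
  invFun d := ⟨idx m d.1, by have := idx_lt m d.1; rwa [d.2] at this⟩
  left_inv j := by
    ext
    exact idx_dart m v j.2
  right_inv d := by
    ext
    have := dart_idx m d.1
    rw [d.2] at this
    exact this

theorem card_tail (v : m.Vert) : Nat.card {d : D // m.tail d = v} = kk m v := by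
  rw [← Nat.card_congr (dartEquiv m v), Nat.card_eq_fintype_card, Fintype.card_fin]

end

end QR33
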