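import Pool.Agent.Helper98.QR.StmtsS

/-!
# Row S07: monotonicity under embeddings
-/

namespace QR

noncomputable section

open Filter Topology

namespace S07

theorem near_mono {V : Type} {c : V → V → ℕ} {r : ℕ} (k : ℕ) {x y : V} (h : SPR.Near c r x y) :
    SPR.Near c (r + k) x y := by
  induction k with
  | zero => exact h
  | succ k ih => exact Or.inl ih

theorem near_le {V : Type} {c : V → V → ℕ} {r s : ℕ} (hrs : r ≤ s) {x y : V}
    (h : SPR.Near c r x y) : SPR.Near c s x y := by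
  obtain ⟨k, rfl⟩ := Nat.exists_eq_add_of_le hrs
  exact near_mono k h

theorem NB_iff {D : Type} (m : RMap D) (o : D) (r : ℕ) (v : m.Vert) :
    NB m o r v ↔ ∃ b, OnB m o b ∧ SPR.Near m.mult r b v := by
  constructor
  · rintro ⟨i, hi⟩
    exact ⟨_, ⟨(m.face ^ i) o, ⟨i, rfl⟩, rfl⟩, hi⟩
  · rintro ⟨b, ⟨e, ⟨i, hi⟩, he⟩, hb⟩
    refine ⟨i, ?_⟩
    rw [hi, he]
    exact hb

section

variable {D D' : Type} [Finite D] [Finite D'] (m' : RMap D') (o' : D') (m : RMap D) (o : D)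

instance {E : Type} [Finite E] (m : RMap E) : Finite m.Vert := by unfold RMap.Vert; infer_instance

/-- The vertex map. -/
def ph (j : D' → D) (v : m'.Vert) : m.Vert := m.tail (j v.out)

variable {m' o' m o} {j : D' → D}

omit [Finite D] [Finite D'] in
theorem ph_tail (h3 : ∀ d e, m'.tail d = m'.tail e ↔ m.tail (j d) = m.tail (j e)) (d : D') :
    ph m' m j (m'.tail d) = m.tail (j d) := by
  unfold ph
  apply (h3 _ _).1
  exact Quotient.out_eq (m'.tail d)

omit [Finite D] [Finite D'] in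
theorem tail_surj (v : m'.Vert) : ∃ d, m'.tail d = v := ⟨v.out, Quotient.out_eq v⟩

omit [Finite D] [Finite D'] in
theorem ph_inj (h3 : ∀ d e, m'.tail d = m'.tail e ↔ m.tail (j d) = m.tail (j e)) :
    Function.Injective (ph m' m j) := by
  intro x y h
  obtain ⟨d, rfl⟩ := tail_surj x
  obtain ⟨e, rfl⟩ := tail_surj y
  rw [ph_tail h3, ph_tail h3] at h
  exact (h3 _ _).2 h

theorem near_ph (h01 : ST_S01) (h2 : ∀ d, j (m'.opp d) = m.opp (j d))
    (h3 : ∀ d e, m'.tail d = m'.tail e ↔ m.tail (j d) = m.tail (j e)) (r : ℕ) (x y : m'.Vert)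
    (h : SPR.Near m'.mult r x y) : SPR.Near m.mult r (ph m' m j x) (ph m' m j y) := by
  induction r generalizing y with
  | zero =>
    have : x = y := h
    rw [this]
    exact rfl
  | succ r ih =>
    rcases h with h | ⟨z, hz, hzy⟩
    · exact Or.inl (ih y h)
    · refine Or.inr ⟨ph m' m j z, ih z hz, ?_⟩
      obtain ⟨d, hd1, hd2⟩ := ((h01 D' m').2.2.2.2.2.1 z y).1 hzy
      apply ((h01 D m).2.2.2.2.2.1 _ _).2
      refine ⟨j d, ?_, ?_⟩
      · rw [← hd1, ph_tail h3]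
      · rw [← hd2, ph_tail h3, h2]

theorem NB_ph (h01 : ST_S01) (h2 : ∀ d, j (m'.opp d) = m.opp (j d))
    (h3 : ∀ d e, m'.tail d = m'.tail e ↔ m.tail (j d) = m.tail (j e))
    (h4 : ∀ d ∈ outer m' o', j d ∈ outer m o) (r : ℕ) (v : m'.Vert) (h : NB m' o' r v) :
    NB m o r (ph m' m j v) := by
  rw [NB_iff] at h ⊢
  obtain ⟨b, ⟨e, he, hb⟩, hn⟩ := h
  refine ⟨ph m' m j b, ⟨j e, h4 e he, ?_⟩, near_ph h01 h2 h3 r b v hn⟩
  rw [← hb, ph_tail h3]

theorem lift (h01 : ST_S01) (h2 : ∀ d, j (m'.opp d) = m.opp (j d))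
    (h3 : ∀ d e, m'.tail d = m'.tail e ↔ m.tail (j d) = m.tail (j e))
    (h6 : ∀ d x, ¬ OnB m' o' (m'.tail d) → m.tail x = m.tail (j d) → x ∈ Set.range j)
    (s : ℕ) (v : m'.Vert) (hv : ¬ NB m' o' (s - 1) v) (r : ℕ) (hr : r ≤ s) (u : m.Vert)
    (hu : SPR.Near m.mult r (ph m' m j v) u) :
    ∃ u', ph m' m j u' = u ∧ SPR.Near m'.mult r v u' := by
  induction r generalizing u with
  | zero =>
    have : ph m' m j v = u := hu
    exact ⟨v, this, rfl⟩
  | succ r ih =>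
    rcases hu with hu | ⟨z, hz, hzu⟩
    · obtain ⟨u', h1', h2'⟩ := ih (by omega) u hu
      exact ⟨u', h1', Or.inl h2'⟩
    · obtain ⟨z', hz1, hz2⟩ := ih (by omega) z hz
      have hz3 : ¬ OnB m' o' z' := by
        intro hc
        apply hv
        rw [NB_iff]
        exact ⟨z', hc, near_le (by omega) ((h01 D' m').2.1 r v z' hz2)⟩
      obtain ⟨x, hx1, hx2⟩ := ((h01 D m).2.2.2.2.2.1 z u).1 hzu
      obtain ⟨d, hd⟩ := tail_surj z'
      have h7 : m.tail x = m.tail (j d) := by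
        rw [hx1, ← hz1, ← hd, ph_tail h3]
      obtain ⟨y, hy⟩ := h6 d x (by rw [hd]; exact hz3) h7
      have h8 : m'.tail y = z' := by
        rw [← hd]
        apply (h3 _ _).2
        rw [hy, h7]
      refine ⟨m'.tail (m'.opp y), ?_, Or.inr ⟨z', hz2, ?_⟩⟩
      · rw [ph_tail h3, h2, hy]
        exact hx2
      · apply ((h01 D' m').2.2.2.2.2.1 _ _).2
        exact ⟨y, h8, rfl⟩

theorem not_NB (h01 : ST_S01) (h2 : ∀ d, j (m'.opp d) = m.opp (j d))
    (h3 : ∀ d e, m'.tail d = m'.tail e ↔ m.tail (j d) = m.tail (j e))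
    (h5 : ∀ d, OnB m o (m.tail (j d)) → OnB m' o' (m'.tail d))
    (h6 : ∀ d x, ¬ OnB m' o' (m'.tail d) → m.tail x = m.tail (j d) → x ∈ Set.range j)
    (s : ℕ) (v : m'.Vert) (hv : ¬ NB m' o' (s - 1) v) : ¬ NB m o (s - 1) (ph m' m j v) := by
  intro hc
  rw [NB_iff] at hc
  obtain ⟨b, hb, hn⟩ := hc
  obtain ⟨b', hb1, hb2⟩ := lift h01 h2 h3 h6 s v hv (s - 1) (by omega) b
    ((h01 D m).2.1 _ _ _ hn)
  apply hv
  rw [NB_iff]
  obtain ⟨d, hd⟩ := tail_surj b'
  refine ⟨b', ?_, (h01 D' m').2.1 _ _ _ hb2⟩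
  rw [← hd]
  apply h5
  rw [← ph_tail h3, hd, hb1]
  exact hb

theorem Ftube_le (h01 : ST_S01) (h2 : ∀ d, j (m'.opp d) = m.opp (j d))
    (h3 : ∀ d e, m'.tail d = m'.tail e ↔ m.tail (j d) = m.tail (j e))
    (h4 : ∀ d ∈ outer m' o', j d ∈ outer m o) (h : ℕ) : Ftube h D' m' o' ≤ Ftube h D m o := by
  unfold Ftube
  have : Nat.card {v : m'.Vert // NB m' o' h v} ≤ Nat.card {v : m.Vert // NB m o h v} := by
    refine Nat.card_le_card_of_injective
      (fun v => ⟨ph m' m j v.1, NB_ph h01 h2 h3 h4 h v.1 v.2⟩) ?_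
    intro x y hxy
    apply Subtype.ext
    exact ph_inj h3 (congrArg Subtype.val hxy)
  exact_mod_cast this

theorem Fbad_le (h01 : ST_S01) (h2 : ∀ d, j (m'.opp d) = m.opp (j d))
    (h3 : ∀ d e, m'.tail d = m'.tail e ↔ m.tail (j d) = m.tail (j e))
    (h4 : ∀ d ∈ outer m' o', j d ∈ outer m o)
    (h5 : ∀ d, OnB m o (m.tail (j d)) → OnB m' o' (m'.tail d))
    (h6 : ∀ d x, ¬ OnB m' o' (m'.tail d) → m.tail x = m.tail (j d) → x ∈ Set.range j)
    (t h : ℕ) : Fbad t h D' m' o' ≤ Fbad t h D m o := by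
  unfold Fbad
  have key : ∀ v : m'.Vert, (NB m' o' h v ∧ ¬ NB m' o' (4 * t ^ 16 - 1) v ∧
      Nat.card {u // SPR.Near m'.mult (4 * t ^ 16) v u} ≤ t ^ 56) →
      (NB m o h (ph m' m j v) ∧ ¬ NB m o (4 * t ^ 16 - 1) (ph m' m j v) ∧
      Nat.card {u // SPR.Near m.mult (4 * t ^ 16) (ph m' m j v) u} ≤ t ^ 56) := by
    rintro v ⟨ha, hb, hc⟩
    refine ⟨NB_ph h01 h2 h3 h4 h v ha, not_NB h01 h2 h3 h5 h6 _ v hb, le_trans ?_ hc⟩
    refine Nat.card_le_card_of_surjective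
      (fun u => ⟨ph m' m j u.1, near_ph h01 h2 h3 _ _ _ u.2⟩) ?_
    rintro ⟨u, hu⟩
    obtain ⟨u', h1', h2'⟩ := lift h01 h2 h3 h6 _ v hb _ (le_refl _) u hu
    exact ⟨⟨u', h2'⟩, Subtype.ext h1'⟩
  have : Nat.card {v : m'.Vert // NB m' o' h v ∧ ¬ NB m' o' (4 * t ^ 16 - 1) v ∧
      Nat.card {u // SPR.Near m'.mult (4 * t ^ 16) v u} ≤ t ^ 56} ≤
      Nat.card {v : m.Vert // NB m o h v ∧ ¬ NB m o (4 * t ^ 16 - 1) v ∧
      Nat.card {u // SPR.Near m.mult (4 * t ^ 16) v u} ≤ t ^ 56} := by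
    refine Nat.card_le_card_of_injective (fun v => ⟨ph m' m j v.1, key v.1 v.2⟩) ?_
    intro x y hxy
    apply Subtype.ext
    exact ph_inj h3 (congrArg Subtype.val hxy)
  exact_mod_cast this

theorem deg_le (h01 : ST_S01) (h1 : Function.Injective j)
    (h3 : ∀ d e, m'.tail d = m'.tail e ↔ m.tail (j d) = m.tail (j e)) (v : m'.Vert) :
    SPR.deg m'.mult v ≤ SPR.deg m.mult (ph m' m j v) := by
  rw [(h01 D' m').2.2.2.1, (h01 D m).2.2.2.1]
  refine Nat.card_le_card_of_injective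
    (fun d => ⟨j d.1, by rw [← ph_tail h3, d.2]⟩) ?_
  intro x y hxy
  apply Subtype.ext
  exact h1 (congrArg Subtype.val hxy)

open Classical in
theorem finsum_ite {α : Type} [Fintype α] (P : α → Prop) (f : α → ℝ) :
    ∑ᶠ (v) (_ : P v), f v = ∑ v, if P v then f v else 0 := by
  rw [finsum_eq_sum_of_fintype]
  apply Finset.sum_congr rfl
  intro v _
  exact finsum_eq_if

theorem Fdeg_le (h01 : ST_S01) (h1 : Function.Injective j) (h2 : ∀ d, j (m'.opp d) = m.opp (j d))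
    (h3 : ∀ d e, m'.tail d = m'.tail e ↔ m.tail (j d) = m.tail (j e))
    (h4 : ∀ d ∈ outer m' o', j d ∈ outer m o) (h : ℕ) : Fdeg h D' m' o' ≤ Fdeg h D m o := by
  classical
  unfold Fdeg
  have := Fintype.ofFinite m'.Vert
  have := Fintype.ofFinite m.Vert
  rw [finsum_ite, finsum_ite]
  calc ∑ v : m'.Vert, (if NB m' o' h v then (13 / 12 : ℝ) ^ (SPR.deg m'.mult v) else 0)
      ≤ ∑ v : m'.Vert, (if NB m o h (ph m' m j v) then
          (13 / 12 : ℝ) ^ (SPR.deg m.mult (ph m' m j v)) else 0) := by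
        apply Finset.sum_le_sum
        intro v _
        by_cases hv : NB m' o' h v
        · rw [if_pos hv, if_pos (NB_ph h01 h2 h3 h4 h v hv)]
          exact pow_le_pow_right₀ (by norm_num) (deg_le h01 h1 h3 v)
        · rw [if_neg hv]
          split_ifs <;> positivity
    _ = ∑ v ∈ Finset.univ.map ⟨ph m' m j, ph_inj h3⟩,
          (if NB m o h v then (13 / 12 : ℝ) ^ (SPR.deg m.mult v) else 0) := by
        rw [Finset.sum_map]
        rfl
    _ ≤ _ := by
        apply Finset.sum_le_univ_sum_of_nonneg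
        intro v
        split_ifs <;> positivity

end

end S07

open S07 in
theorem st_S07 (h01 : ST_S01) : ST_S07 := by
  intro T
  constructor
  · intro D m o
    have h1 : ∀ h, 0 ≤ Ftube h D m o := fun h => Nat.cast_nonneg _
    have h2 : ∀ t h, 0 ≤ Fbad t h D m o := fun t h => Nat.cast_nonneg _
    have h3 : ∀ h, 0 ≤ Fdeg h D m o := by
      intro h
      unfold Fdeg
      apply finsum_nonneg
      intro v
      apply finsum_nonneg
      intro _
      positivity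
    unfold YY
    have e1 : 0 ≤ ∑ t ∈ Finset.Icc 1 T,
        (1 / (t : ℝ) ^ 2) * (Ftube (hh t) D m o / ((hh t : ℝ) + 2) ^ 2) := by
      apply Finset.sum_nonneg
      intro t _
      have := h1 (hh t)
      positivity
    have e2 : 0 ≤ ∑ t ∈ Finset.Icc 2 T,
        (1 / (t : ℝ) ^ 2) * ((t : ℝ) ^ 200 * Fbad t (hh t) D m o) := by
      apply Finset.sum_nonneg
      intro t _
      have := h2 t (hh t)
      positivity
    have e3 : 0 ≤ ∑ h ∈ Finset.Icc 1 T,
        (1 / (h : ℝ) ^ 2) * (Fdeg h D m o / ((h : ℝ) + 3) ^ 3) := by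
      apply Finset.sum_nonneg
      intro h _
      have := h3 h
      positivity
    linarith
  · intro D D' _ _ m' o' m o hE
    obtain ⟨j, h1, h2, h3, h4, h5, h6⟩ := hE
    unfold YY
    refine add_le_add (add_le_add ?_ ?_) ?_
    · apply Finset.sum_le_sum
      intro t _
      apply mul_le_mul_of_nonneg_left _ (by positivity)
      exact div_le_div_of_nonneg_right (Ftube_le h01 h2 h3 h4 _) (by positivity)
    · apply Finset.sum_le_sum
      intro t _
      apply mul_le_mul_of_nonneg_left _ (by positivity)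
      exact mul_le_mul_of_nonneg_left (Fbad_le h01 h2 h3 h4 h5 h6 t _) (by positivity)
    · apply Finset.sum_le_sum
      intro h _
      apply mul_le_mul_of_nonneg_left _ (by positivity)
      exact div_le_div_of_nonneg_right (Fdeg_le h01 h1 h2 h3 h4 _) (by positivity)

end

end QR
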