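import Pool.Agent.Helper98.QR.StmtsS

/-!
# Row S08: good sizes for the simple boundary
-/

namespace QR

noncomputable section

open Filter Topology

theorem st_S08 (h6 : ST_S06) (h7 : ST_S07) (hA : ST_A) (h9 : ST_T09) : ST_S08 := by
  obtain ⟨K, hK, h6⟩ := h6
  obtain ⟨c, P0, hc, hP0, hA⟩ := hA h9
  refine ⟨K / c ^ 2, by positivity, ?_⟩
  intro T p0 n0
  obtain ⟨Q0, hQ0⟩ := eventually_atTop.1 (h6 T)
  set Q : ℕ := max (max Q0 P0) ⌈(p0 : ℝ) / c⌉₊ with hQdef
  have hQ1 : Q0 ≤ Q := le_trans (le_max_left _ _) (le_max_left _ _)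
  have hQ2 : P0 ≤ Q := le_trans (le_max_right _ _) (le_max_left _ _)
  have hQ3 : (p0 : ℝ) ≤ c * Q := by
    have h1 : (p0 : ℝ) / c ≤ (⌈(p0 : ℝ) / c⌉₊ : ℝ) := Nat.le_ceil _
    have h2 : ((⌈(p0 : ℝ) / c⌉₊ : ℕ) : ℝ) ≤ (Q : ℝ) := by exact_mod_cast le_max_right _ _
    have h3 : (p0 : ℝ) / c ≤ Q := h1.trans h2
    rw [div_le_iff₀ hc] at h3
    linarith
  have hQ4 : 1 ≤ Q := hP0.trans hQ2
  obtain ⟨M0, hM0⟩ := eventually_atTop.1 (hQ0 Q hQ1)
  have hall : ∀ᶠ N : ℕ in atTop, ∀ P ∈ Finset.Ioc Q (2 * Q),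
      ∃ (I : Finset (ℕ × ℕ)) (w : ℕ × ℕ → ℝ),
      (∀ i ∈ I, 0 ≤ w i ∧ N ≤ 2 * P * i.1 ∧ c * P ≤ i.2 ∧ 1 ≤ i.2 ∧ i.2 ≤ P ∧ (SQ i.1 i.2).Nonempty) ∧
      c ≤ ∑ i ∈ I, w i ∧
      ∀ X : (D : Type) → RMap D → D → ℝ, (∀ D m o, 0 ≤ X D m o) →
        (∀ (D D' : Type) [Finite D] [Finite D'] (m' : RMap D') (o' : D') (m : RMap D) (o : D),
          Emb m' o' m o → X D' m' o' ≤ X D m o) →
        ∑ i ∈ I, w i * avS i.1 i.2 X ≤ avG N P X := by
    rw [Filter.eventually_all_finset]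
    intro P hP
    rw [Finset.mem_Ioc] at hP
    exact hA P (by omega)
  obtain ⟨M1, hM1⟩ := eventually_atTop.1 hall
  set B : ℕ := ∑ p ∈ Finset.range (2 * Q + 1), n0 p with hB
  have hBn : ∀ p, p ≤ 2 * Q → n0 p ≤ B := by
    intro p hp
    exact Finset.single_le_sum (f := n0) (fun _ _ => Nat.zero_le _) (Finset.mem_range.2 (by omega))
  set M : ℕ := max (max M0 M1) (4 * Q * B + 1) with hM
  have hMa : M0 ≤ M := le_trans (le_max_left _ _) (le_max_left _ _)
  have hMb : M1 ≤ M := le_trans (le_max_right _ _) (le_max_left _ _)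
  have hMc : 4 * Q * B + 1 ≤ M := le_max_right _ _
  have hav := hM0 M hMa
  -- a good pair
  have hex : ∃ P ∈ Finset.Ioc Q (2 * Q), ∃ N ∈ Finset.Ico M (2 * M),
      avG N P (YY T) / P ≤ K := by
    by_contra hcon
    push Not at hcon
    have hlt : (Q * M : ℝ) * K <
        ∑ P ∈ Finset.Ioc Q (2 * Q), ∑ N ∈ Finset.Ico M (2 * M), avG N P (YY T) / P := by
      have e1 : (Q * M : ℝ) * K = ∑ P ∈ Finset.Ioc Q (2 * Q), ∑ N ∈ Finset.Ico M (2 * M), K := by
        rw [Finset.sum_const, Finset.sum_const, Nat.card_Ioc, Nat.card_Ico]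
        have a1 : 2 * Q - Q = Q := by omega
        have a2 : 2 * M - M = M := by omega
        rw [a1, a2, nsmul_eq_mul, nsmul_eq_mul]
        ring
      rw [e1]
      apply Finset.sum_lt_sum_of_nonempty
      · exact ⟨Q + 1, by rw [Finset.mem_Ioc]; omega⟩
      · intro P hP
        apply Finset.sum_lt_sum_of_nonempty
        · exact ⟨M, by rw [Finset.mem_Ico]; omega⟩
        · intro N hN
          exact hcon P hP N hN
    have hpos : (0 : ℝ) < Q * M := by
      have a1 : (0 : ℝ) < Q := by exact_mod_cast hQ4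
      have a2 : (0 : ℝ) < M := by
        have : 0 < M := by omega
        exact_mod_cast this
      positivity
    rw [one_div, inv_mul_le_iff₀ hpos] at hav
    linarith
  obtain ⟨P, hP, N, hN, hPN⟩ := hex
  obtain ⟨I, w, hI, hw, hX⟩ := hM1 N (by rw [Finset.mem_Ico] at hN; omega) P hP
  have hX1 := hX (YY T) (h7 T).1 (h7 T).2
  rw [Finset.mem_Ioc] at hP
  rw [Finset.mem_Ico] at hN
  have hPpos : (0 : ℝ) < P := by
    have : 0 < P := by omega
    exact_mod_cast this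
  rw [div_le_iff₀ hPpos] at hPN
  have hi : ∃ i ∈ I, avS i.1 i.2 (YY T) ≤ K * P / c := by
    by_contra hcon
    push Not at hcon
    have h1 : ∑ i ∈ I, w i * (K * P / c) < ∑ i ∈ I, w i * avS i.1 i.2 (YY T) := by
      apply Finset.sum_lt_sum
      · intro i hi
        exact mul_le_mul_of_nonneg_left (hcon i hi).le (hI i hi).1
      · obtain ⟨i, hi, hwi⟩ : ∃ i ∈ I, 0 < w i := by
          by_contra hc2
          push Not at hc2
          have : ∑ i ∈ I, w i ≤ 0 := Finset.sum_nonpos hc2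
          linarith
        exact ⟨i, hi, mul_lt_mul_of_pos_left (hcon i hi) hwi⟩
    rw [← Finset.sum_mul] at h1
    have h2 : c * (K * P / c) ≤ (∑ i ∈ I, w i) * (K * P / c) :=
      mul_le_mul_of_nonneg_right hw (by positivity)
    have h3 : c * (K * P / c) = K * P := by field_simp
    linarith
  obtain ⟨i, hi, hav2⟩ := hi
  obtain ⟨-, g2, g3, g4, g5, g6⟩ := hI i hi
  refine ⟨i.2, i.1, ?_, g4, ?_, g6, ?_⟩
  · have a1 : (Q : ℝ) ≤ P := by exact_mod_cast hP.1.le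
    have a2 : (p0 : ℝ) ≤ i.2 := by
      have := mul_le_mul_of_nonneg_left a1 hc.le
      linarith
    exact_mod_cast a2
  · have a1 := hBn i.2 (by omega)
    by_contra hcon
    push Not at hcon
    have a2 : i.1 + 1 ≤ B := by omega
    have a3 : 2 * P * i.1 ≤ 4 * Q * B := by
      calc 2 * P * i.1 ≤ (4 * Q) * B := Nat.mul_le_mul (by omega) (by omega)
        _ = 4 * Q * B := rfl
    omega
  · calc avS i.1 i.2 (YY T) ≤ K * P / c := hav2
      _ ≤ K / c ^ 2 * i.2 := by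
        rw [div_mul_eq_mul_div, div_le_div_iff₀ hc (by positivity)]
        have := mul_le_mul_of_nonneg_left g3 (by positivity : (0 : ℝ) ≤ K * c)
        nlinarith

end

end QR
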