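import Pool.Agent.Helper33.QR.Idx

/-!
# Replacing every vertex of a map by a balanced binary tree
-/

namespace QR33

open QR

noncomputable section

/-- A simple labelled planar map: darts `E`, vertices `V`, faces `F`; `op` reverses a dart, `ph` is
the next dart along the face. -/
structure LM (E V F : Type) where
  op : E → E
  ph : E → E
  tl : E → V
  fc : E → F
  op_op : ∀ e, op (op e) = e
  ph_inj : Function.Injective ph
  tl_ph : ∀ e, tl (ph e) = tl (op e)
  fc_ph : ∀ e, fc (ph e) = fc e
  tl_surj : Function.Surjective tl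
  fc_surj : Function.Surjective fc
  ne : ∀ e, tl e ≠ tl (op e)
  simple : ∀ e e', tl e = tl e' → tl (op e) = tl (op e') → e = e'
  ph2 : ∀ e, ph (ph e) ≠ e
  conn : ∀ P : E → Prop, (∃ e, P e) → (∀ e, P e → P (ph e)) → (∀ e, P e → P (op e)) → ∀ e, P e
  euler : 2 * (Nat.card V + Nat.card F) = Nat.card E + 4
  deg3 : ∀ v, Nat.card {e // tl e = v} ≤ 3

set_option linter.unusedSectionVars false

variable {D : Type} [Finite D] (m : RMap D)

/-- Height of the tree of `v`. -/
def ht (v : m.Vert) : ℕ := Nat.clog 2 (kk m v)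

theorem kk_le (v : m.Vert) : kk m v ≤ 2 ^ ht m v := Nat.le_pow_clog (by norm_num) _

theorem lt_kk (v : m.Vert) {i : ℕ} (h : i < ht m v) : 2 ^ i < kk m v := by
  by_contra hc
  push Not at hc
  have := Nat.clog_le_of_le_pow hc
  unfold ht at h
  omega

/-- The nodes of the trees. -/
@[ext]
structure Node where
  v : m.Vert
  i : ℕ
  j : ℕ
  hi : i ≤ ht m v
  hj : j * 2 ^ i < kk m v

/-- The nodes which are not roots. -/
abbrev NR := {x : Node m // x.i < ht m x.v}

/-- The leaf of a dart. -/
def leaf (d : D) : Node m := ⟨m.tail d, 0, idx m d, Nat.zero_le _, by simpa using idx_lt m d⟩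

/-- The root of the tree of `v`. -/
def root (v : m.Vert) : Node m := ⟨v, ht m v, 0, le_refl _, by simpa using kk_pos m v⟩

omit [Finite D] in
theorem half_mul (j i : ℕ) : j / 2 * 2 ^ (i + 1) ≤ j * 2 ^ i := by
  have h1 : j / 2 * 2 ≤ j := Nat.div_mul_le_self j 2
  calc j / 2 * 2 ^ (i + 1) = (j / 2 * 2) * 2 ^ i := by ring
    _ ≤ j * 2 ^ i := Nat.mul_le_mul_right _ h1

/-- The parent of a node which is not a root. -/
def par (x : NR m) : Node m :=
  ⟨x.1.v, x.1.i + 1, x.1.j / 2, x.2, lt_of_le_of_lt (half_mul _ _) x.1.hj⟩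

/-- The first child. -/
def ch (x : Node m) (h : 0 < x.i) : NR m :=
  ⟨⟨x.v, x.i - 1, 2 * x.j, by have := x.hi; omega, by
    have h1 := x.hj
    have h2 : 2 ^ x.i = 2 * 2 ^ (x.i - 1) := by
      conv_lhs => rw [show x.i = (x.i - 1) + 1 by omega]
      rw [pow_succ]; ring
    rw [h2] at h1
    calc 2 * x.j * 2 ^ (x.i - 1) = x.j * (2 * 2 ^ (x.i - 1)) := by ring
      _ < kk m x.v := h1⟩, by
    have := x.hi
    show x.i - 1 < ht m x.v
    omega⟩

/-- The second child, as the sibling of the first one. -/
def sib (x : NR m) (h : (x.1.j + 1) * 2 ^ x.1.i < kk m x.1.v) : NR m :=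
  ⟨⟨x.1.v, x.1.i, x.1.j + 1, x.1.hi, h⟩, x.2⟩

/-- The node `0` on the same level. -/
def fst (x : NR m) : NR m := ⟨⟨x.1.v, x.1.i, 0, x.1.hi, by simpa using kk_pos m x.1.v⟩, x.2⟩

/-- The darts of the new map: the old darts, and the upward (`true`) and downward (`false`) darts of
the tree edges. -/
abbrev DD := D ⊕ (NR m × Bool)

/-- Reversal. -/
def op' : DD m → DD m
  | Sum.inl d => Sum.inl (m.opp d)
  | Sum.inr (x, b) => Sum.inr (x, !b)

/-- Next dart along the face. -/
def ph' : DD m → DD m
  | Sum.inl d => if h : 0 < ht m (m.tail (m.opp d)) then Sum.inr (⟨leaf m (m.opp d), h⟩, true)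
      else Sum.inl (m.opp d)
  | Sum.inr (x, true) =>
      if h : x.1.j % 2 = 0 ∧ (x.1.j + 1) * 2 ^ x.1.i < kk m x.1.v then Sum.inr (sib m x h.2, false)
      else if h2 : (par m x).i < ht m (par m x).v then Sum.inr (⟨par m x, h2⟩, true)
      else Sum.inr (fst m x, false)
  | Sum.inr (x, false) =>
      if h : 0 < x.1.i then Sum.inr (ch m x.1 h, false) else Sum.inl (dart m x.1.v x.1.j)

/-- Tail. -/
def tl' : DD m → Node m
  | Sum.inl d => leaf m d
  | Sum.inr (x, true) => x.1
  | Sum.inr (x, false) => par m x

/-- Reduction of an index. -/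
def red (k n : ℕ) : ℕ := if n < k then n else 0

/-- Face label. -/
def fc' : DD m → m.Face
  | Sum.inl d => m.fc d
  | Sum.inr (x, true) => m.fc (dart m x.1.v (red (kk m x.1.v) ((x.1.j + 1) * 2 ^ x.1.i)))
  | Sum.inr (x, false) => m.fc (dart m x.1.v (x.1.j * 2 ^ x.1.i))

theorem op_op' (e : DD m) : op' m (op' m e) = e := by
  rcases e with d | ⟨x, b⟩
  · simp [op', m.opp_opp]
  · simp [op']

theorem leaf_dart (x : NR m) (h : x.1.i = 0) : leaf m (dart m x.1.v x.1.j) = x.1 := by
  have h1 := x.1.hj
  rw [h] at h1
  simp only [pow_zero, mul_one] at h1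
  unfold leaf
  ext
  · exact tail_dart m _ _
  · exact h.symm
  · exact idx_dart m _ h1

/-- On the top level but one the index is `0` or `1`. -/
theorem top_j (x : NR m) (h : ¬ (par m x).i < ht m (par m x).v) : x.1.i + 1 = ht m x.1.v ∧
    x.1.j < 2 := by
  have h1 := x.2
  have h2 : ¬ x.1.i + 1 < ht m x.1.v := h
  have h3 : x.1.i + 1 = ht m x.1.v := by omega
  refine ⟨h3, ?_⟩
  have h4 := x.1.hj
  have h5 := kk_le m x.1.v
  rw [← h3, pow_succ] at h5
  by_contra hc
  push Not at hc
  have h6 : 2 * 2 ^ x.1.i ≤ x.1.j * 2 ^ x.1.i := Nat.mul_le_mul_right _ hc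
  omega

theorem tl_ph' (e : DD m) : tl' m (ph' m e) = tl' m (op' m e) := by
  rcases e with d | ⟨x, b⟩
  · simp only [ph', op', tl']
    split_ifs with h
    · rfl
    · rfl
  · cases b
    · simp only [ph', op', tl', Bool.not_false]
      split_ifs with h
      · simp only [tl', par, ch]
        ext
        · rfl
        · show x.1.i - 1 + 1 = x.1.i
          omega
        · show 2 * x.1.j / 2 = x.1.j
          omega
      · have h0 : x.1.i = 0 := by omega
        simp only [tl']
        exact leaf_dart m x h0
    · simp only [ph', op', tl', Bool.not_true]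
      split_ifs with h h2
      · simp only [tl', par, sib]
        ext
        · rfl
        · rfl
        · show (x.1.j + 1) / 2 = x.1.j / 2
          omega
      · rfl
      · simp only [tl', par, fst]
        have h3 := (top_j m x h2).2
        ext
        · rfl
        · rfl
        · show 0 / 2 = x.1.j / 2
          omega

theorem fc_face (d : D) : m.fc (m.face d) = m.fc d := by
  unfold RMap.fc
  apply Quotient.sound
  exact ⟨-1, by simp⟩

theorem fc_ph' (e : DD m) : fc' m (ph' m e) = fc' m e := by
  rcases e with d | ⟨x, b⟩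
  · simp only [ph', fc']
    have hf : m.face d = m.rot (m.opp d) := rfl
    split_ifs with h
    · simp only [fc', leaf]
      rw [← fc_face m d, hf]
      congr 1
      have h1 := idx_rot m (m.opp d)
      have h2 := dart_idx m (m.rot (m.opp d))
      rw [tail_rot, h1] at h2
      simp only [pow_zero, mul_one]
      exact h2
    · simp only [fc']
      have h1 : kk m (m.tail (m.opp d)) = 1 := by
        have h2 := kk_le m (m.tail (m.opp d))
        have h3 := kk_pos m (m.tail (m.opp d))
        have h4 : ht m (m.tail (m.opp d)) = 0 := by omega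
        rw [h4] at h2
        simp at h2
        omega
      have h2 : m.rot (m.opp d) = m.opp d := by
        apply idx_inj m (tail_rot m _)
        have h3 := idx_lt m (m.rot (m.opp d))
        have h4 := idx_lt m (m.opp d)
        rw [tail_rot] at h3
        omega
      rw [← fc_face m d, hf, h2]
  · cases b
    · simp only [ph', fc']
      split_ifs with h
      · simp only [fc', ch]
        congr 2
        have h2 : 2 ^ x.1.i = 2 * 2 ^ (x.1.i - 1) := by
          conv_lhs => rw [show x.1.i = (x.1.i - 1) + 1 by omega]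
          rw [pow_succ]; ring
        rw [h2]
        ring
      · have h0 : x.1.i = 0 := by omega
        simp [fc', h0]
    · simp only [ph', fc']
      split_ifs with h h2
      · simp only [fc', sib]
        rw [red, if_pos h.2]
      · simp only [fc', par]
        by_cases h4 : (x.1.j + 1) * 2 ^ x.1.i < kk m x.1.v
        · by_cases hj : x.1.j % 2 = 0
          · exact absurd ⟨hj, h4⟩ h
          · have e1 : (x.1.j / 2 + 1) * 2 ^ (x.1.i + 1) = (x.1.j + 1) * 2 ^ x.1.i := by
              have : (x.1.j / 2 + 1) * 2 = x.1.j + 1 := by omega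
              rw [pow_succ, ← this]; ring
            rw [e1]
        · have e1 : ¬ (x.1.j / 2 + 1) * 2 ^ (x.1.i + 1) < kk m x.1.v := by
            intro h6
            apply h4
            refine lt_of_le_of_lt ?_ h6
            have : x.1.j + 1 ≤ (x.1.j / 2 + 1) * 2 := by omega
            calc (x.1.j + 1) * 2 ^ x.1.i ≤ ((x.1.j / 2 + 1) * 2) * 2 ^ x.1.i :=
                  Nat.mul_le_mul_right _ this
              _ = _ := by rw [pow_succ]; ring
          rw [red, red, if_neg e1, if_neg h4]
      · simp only [fc', fst, zero_mul]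
        have h6 := top_j m x h2
        have h4 : ¬ (x.1.j + 1) * 2 ^ x.1.i < kk m x.1.v := by
          intro h5
          by_cases hj : x.1.j % 2 = 0
          · exact h ⟨hj, h5⟩
          · have : x.1.j = 1 := by omega
            rw [this] at h5
            have h7 := kk_le m x.1.v
            rw [← h6.1, pow_succ] at h7
            omega
        rw [red, if_neg h4]

end

end QR33
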