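import Pool.Agent.Helper33.QR.Tree

/-!
# The tree blow-up of a map is a simple labelled planar map
-/

namespace QR33

open QR

noncomputable section

set_option linter.unusedSectionVars false

variable {D : Type} [Finite D] (m : RMap D)

theorem leaf_dart' (x : Node m) (h : x.i = 0) : leaf m (dart m x.v x.j) = x := by
  have h1 := x.hj
  rw [h] at h1
  simp only [pow_zero, mul_one] at h1
  unfold leaf
  ext
  · exact tail_dart m _ _
  · exact h.symm
  · exact idx_dart m _ h1

theorem leaf_inj {d d' : D} (h : leaf m d = leaf m d') : d = d' := by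
  have h1 : (leaf m d).v = (leaf m d').v := by rw [h]
  have h2 : (leaf m d).j = (leaf m d').j := by rw [h]
  exact idx_inj m h1 h2

theorem par_ch (x : Node m) (h : 0 < x.i) : par m (ch m x h) = x := by
  ext
  · rfl
  · show x.i - 1 + 1 = x.i
    omega
  · show 2 * x.j / 2 = x.j
    omega

theorem ne' (e : DD m) : tl' m e ≠ tl' m (op' m e) := by
  rcases e with d | ⟨x, b⟩
  · intro h
    exact m.opp_ne d (leaf_inj m h).symm
  · intro h
    have h1 : (tl' m (Sum.inr (x, b))).i = (tl' m (op' m (Sum.inr (x, b)))).i := by rw [h]
    cases b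
    · have h2 : x.1.i + 1 = x.1.i := h1
      omega
    · have h2 : x.1.i = x.1.i + 1 := h1
      omega

theorem simple' (e e' : DD m) (h1 : tl' m e = tl' m e')
    (h2 : tl' m (op' m e) = tl' m (op' m e')) : e = e' := by
  rcases e with d | ⟨x, b⟩ <;> rcases e' with d' | ⟨x', b'⟩
  · rw [leaf_inj m h1]
  · exfalso
    have g1 : (tl' m (Sum.inl d)).i = (tl' m (Sum.inr (x', b'))).i := by rw [h1]
    have g2 : (tl' m (op' m (Sum.inl d))).i = (tl' m (op' m (Sum.inr (x', b')))).i := by rw [h2]
    cases b'
    · have g3 : 0 = x'.1.i + 1 := g1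
      omega
    · have g3 : 0 = x'.1.i + 1 := g2
      omega
  · exfalso
    have g1 : (tl' m (Sum.inl d')).i = (tl' m (Sum.inr (x, b))).i := by rw [h1]
    have g2 : (tl' m (op' m (Sum.inl d'))).i = (tl' m (op' m (Sum.inr (x, b)))).i := by rw [h2]
    cases b
    · have g3 : 0 = x.1.i + 1 := g1
      omega
    · have g3 : 0 = x.1.i + 1 := g2
      omega
  · cases b <;> cases b'
    · have : x = x' := Subtype.ext h2
      rw [this]
    · exfalso
      have g1 : (tl' m (Sum.inr (x, false))).i = (tl' m (Sum.inr (x', true))).i := by rw [h1]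
      have g2 : (tl' m (op' m (Sum.inr (x, false)))).i =
        (tl' m (op' m (Sum.inr (x', true)))).i := by rw [h2]
      have g3 : x.1.i + 1 = x'.1.i := g1
      have g4 : x.1.i = x'.1.i + 1 := g2
      omega
    · exfalso
      have g1 : (tl' m (Sum.inr (x, true))).i = (tl' m (Sum.inr (x', false))).i := by rw [h1]
      have g2 : (tl' m (op' m (Sum.inr (x, true)))).i =
        (tl' m (op' m (Sum.inr (x', false)))).i := by rw [h2]
      have g3 : x.1.i = x'.1.i + 1 := g1
      have g4 : x.1.i + 1 = x'.1.i := g2
      omega
    · have : x = x' := Subtype.ext h1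
      rw [this]

theorem tl_surj' : Function.Surjective (tl' m) := by
  intro x
  by_cases h : 0 < x.i
  · exact ⟨Sum.inr (ch m x h, false), par_ch m x h⟩
  · exact ⟨Sum.inl (dart m x.v x.j), leaf_dart' m x (by omega)⟩

theorem fc_surj' : Function.Surjective (fc' m) := by
  intro f
  obtain ⟨d, hd⟩ := Quotient.exists_rep f
  exact ⟨Sum.inl d, hd⟩

/-- A node on the top level but one which is not followed by a sibling has index `1`. -/
theorem top_one (x : NR m) (h : ¬ (x.1.j % 2 = 0 ∧ (x.1.j + 1) * 2 ^ x.1.i < kk m x.1.v))
    (h2 : ¬ (par m x).i < ht m (par m x).v) : x.1.j = 1 := by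
  obtain ⟨h3, h4⟩ := top_j m x h2
  by_contra hc
  have h5 : x.1.j = 0 := by omega
  apply h
  rw [h5]
  refine ⟨rfl, ?_⟩
  have := lt_kk m x.1.v x.2
  simpa using this

theorem ph_in_1 (d : D) (h : 0 < ht m (m.tail (m.opp d))) :
    ph' m (Sum.inl d) = Sum.inr (⟨leaf m (m.opp d), h⟩, true) := by
  simp only [ph']; rw [dif_pos h]

theorem ph_in_2 (d : D) (h : ¬ 0 < ht m (m.tail (m.opp d))) :
    ph' m (Sum.inl d) = Sum.inl (m.opp d) := by
  simp only [ph']; rw [dif_neg h]

theorem ph_up_1 (x : NR m) (h : x.1.j % 2 = 0 ∧ (x.1.j + 1) * 2 ^ x.1.i < kk m x.1.v) :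
    ph' m (Sum.inr (x, true)) = Sum.inr (sib m x h.2, false) := by
  simp only [ph']; rw [dif_pos h]

theorem ph_up_2 (x : NR m) (h : ¬ (x.1.j % 2 = 0 ∧ (x.1.j + 1) * 2 ^ x.1.i < kk m x.1.v))
    (h2 : (par m x).i < ht m (par m x).v) :
    ph' m (Sum.inr (x, true)) = Sum.inr (⟨par m x, h2⟩, true) := by
  simp only [ph']; rw [dif_neg h, dif_pos h2]

theorem ph_up_3 (x : NR m) (h : ¬ (x.1.j % 2 = 0 ∧ (x.1.j + 1) * 2 ^ x.1.i < kk m x.1.v))
    (h2 : ¬ (par m x).i < ht m (par m x).v) :
    ph' m (Sum.inr (x, true)) = Sum.inr (fst m x, false) := by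
  simp only [ph']; rw [dif_neg h, dif_neg h2]

theorem ph_dn_1 (x : NR m) (h : 0 < x.1.i) :
    ph' m (Sum.inr (x, false)) = Sum.inr (ch m x.1 h, false) := by
  simp only [ph']; rw [dif_pos h]

theorem ph_dn_2 (x : NR m) (h : ¬ 0 < x.1.i) :
    ph' m (Sum.inr (x, false)) = Sum.inl (dart m x.1.v x.1.j) := by
  simp only [ph']; rw [dif_neg h]

theorem inr_inj {x y : NR m} {b c : Bool} (h : (Sum.inr (x, b) : DD m) = Sum.inr (y, c)) :
    x = y := congrArg Prod.fst (Sum.inr.inj h)

theorem inr_inj2 {x y : NR m} {b c : Bool} (h : (Sum.inr (x, b) : DD m) = Sum.inr (y, c)) :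
    b = c := congrArg Prod.snd (Sum.inr.inj h)

theorem nr_ext {x y : NR m} (h1 : x.1.v = y.1.v) (h2 : x.1.i = y.1.i) (h3 : x.1.j = y.1.j) :
    x = y := by
  apply Subtype.ext
  ext
  · exact h1
  · exact h2
  · exact h3

theorem ph_inj' : Function.Injective (ph' m) := by
  have key1 : ∀ (d : D) (x : NR m), ph' m (Sum.inl d) ≠ ph' m (Sum.inr (x, true)) := by
    intro d x h
    by_cases h1 : 0 < ht m (m.tail (m.opp d))
    · rw [ph_in_1 m d h1] at h
      by_cases h2 : x.1.j % 2 = 0 ∧ (x.1.j + 1) * 2 ^ x.1.i < kk m x.1.v
      · rw [ph_up_1 m x h2] at h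
        exact absurd (inr_inj2 m h) (by simp)
      · by_cases h3 : (par m x).i < ht m (par m x).v
        · rw [ph_up_2 m x h2 h3] at h
          have h4 := congrArg Subtype.val (inr_inj m h)
          have h5 : (leaf m (m.opp d)).i = (par m x).i := by
            have h00 := congrArg Node.i h4
            exact h00
          have h6 : 0 = x.1.i + 1 := h5
          omega
        · rw [ph_up_3 m x h2 h3] at h
          exact absurd (inr_inj2 m h) (by simp)
    · rw [ph_in_2 m d h1] at h
      by_cases h2 : x.1.j % 2 = 0 ∧ (x.1.j + 1) * 2 ^ x.1.i < kk m x.1.v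
      · rw [ph_up_1 m x h2] at h
        exact absurd h (by simp)
      · by_cases h3 : (par m x).i < ht m (par m x).v
        · rw [ph_up_2 m x h2 h3] at h
          exact absurd h (by simp)
        · rw [ph_up_3 m x h2 h3] at h
          exact absurd h (by simp)
  have key2 : ∀ (d : D) (x : NR m), ph' m (Sum.inl d) ≠ ph' m (Sum.inr (x, false)) := by
    intro d x h
    by_cases h1 : 0 < ht m (m.tail (m.opp d))
    · rw [ph_in_1 m d h1] at h
      by_cases h2 : 0 < x.1.i
      · rw [ph_dn_1 m x h2] at h
        exact absurd (inr_inj2 m h) (by simp)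
      · rw [ph_dn_2 m x h2] at h
        exact absurd h (by simp)
    · rw [ph_in_2 m d h1] at h
      by_cases h2 : 0 < x.1.i
      · rw [ph_dn_1 m x h2] at h
        exact absurd h (by simp)
      · rw [ph_dn_2 m x h2] at h
        have h3 := Sum.inl.inj h
        have h4 : m.tail (m.opp d) = x.1.v := by rw [h3, tail_dart]
        rw [h4] at h1
        have := x.2
        omega
  have key3 : ∀ (x y : NR m), ph' m (Sum.inr (x, true)) ≠ ph' m (Sum.inr (y, false)) := by
    intro x y h
    by_cases h1 : 0 < y.1.i
    · rw [ph_dn_1 m y h1] at h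
      by_cases h2 : x.1.j % 2 = 0 ∧ (x.1.j + 1) * 2 ^ x.1.i < kk m x.1.v
      · rw [ph_up_1 m x h2] at h
        have h4 := congrArg Subtype.val (inr_inj m h)
        have h6 : x.1.j + 1 = 2 * y.1.j := by
          have h00 := congrArg Node.j h4
          exact h00
        have := h2.1
        omega
      · by_cases h3 : (par m x).i < ht m (par m x).v
        · rw [ph_up_2 m x h2 h3] at h
          exact absurd (inr_inj2 m h) (by simp)
        · rw [ph_up_3 m x h2 h3] at h
          have h4 := congrArg Subtype.val (inr_inj m h)
          have h6 : x.1.i = y.1.i - 1 := by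
            have h00 := congrArg Node.i h4
            exact h00
          have h8 : x.1.v = y.1.v := by
            have h00 := congrArg Node.v h4
            exact h00
          have h9 := (top_j m x h3).1
          have h10 := y.2
          rw [h8] at h9
          omega
    · rw [ph_dn_2 m y h1] at h
      by_cases h2 : x.1.j % 2 = 0 ∧ (x.1.j + 1) * 2 ^ x.1.i < kk m x.1.v
      · rw [ph_up_1 m x h2] at h
        exact absurd h (by simp)
      · by_cases h3 : (par m x).i < ht m (par m x).v
        · rw [ph_up_2 m x h2 h3] at h
          exact absurd h (by simp)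
        · rw [ph_up_3 m x h2 h3] at h
          exact absurd h (by simp)
  intro e e' h
  rcases e with d | ⟨x, b⟩ <;> rcases e' with d' | ⟨x', b'⟩
  · by_cases h1 : 0 < ht m (m.tail (m.opp d))
    · rw [ph_in_1 m d h1] at h
      by_cases h2 : 0 < ht m (m.tail (m.opp d'))
      · rw [ph_in_1 m d' h2] at h
        have h4 := leaf_inj m (congrArg Subtype.val (inr_inj m h))
        rw [m.opp.injective h4]
      · rw [ph_in_2 m d' h2] at h
        exact absurd h (by simp)
    · rw [ph_in_2 m d h1] at h
      by_cases h2 : 0 < ht m (m.tail (m.opp d'))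
      · rw [ph_in_1 m d' h2] at h
        exact absurd h (by simp)
      · rw [ph_in_2 m d' h2] at h
        rw [m.opp.injective (Sum.inl.inj h)]
  · cases b'
    · exact absurd h (key2 _ _)
    · exact absurd h (key1 _ _)
  · cases b
    · exact absurd h.symm (key2 _ _)
    · exact absurd h.symm (key1 _ _)
  · cases b <;> cases b'
    · by_cases h1 : 0 < x.1.i
      · rw [ph_dn_1 m x h1] at h
        by_cases h2 : 0 < x'.1.i
        · rw [ph_dn_1 m x' h2] at h
          have h4 : par m (ch m x.1 h1) = par m (ch m x'.1 h2) := by rw [inr_inj m h]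
          rw [par_ch, par_ch] at h4
          rw [Subtype.ext h4]
        · rw [ph_dn_2 m x' h2] at h
          exact absurd h (by simp)
      · rw [ph_dn_2 m x h1] at h
        by_cases h2 : 0 < x'.1.i
        · rw [ph_dn_1 m x' h2] at h
          exact absurd h (by simp)
        · rw [ph_dn_2 m x' h2] at h
          have h4 : leaf m (dart m x.1.v x.1.j) = leaf m (dart m x'.1.v x'.1.j) := by
            rw [Sum.inl.inj h]
          rw [leaf_dart' m x.1 (by omega), leaf_dart' m x'.1 (by omega)] at h4
          rw [Subtype.ext h4]
    · exact absurd h.symm (key3 _ _)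
    · exact absurd h (key3 _ _)
    · have hx : x = x' := by
        by_cases h1 : x.1.j % 2 = 0 ∧ (x.1.j + 1) * 2 ^ x.1.i < kk m x.1.v
        · rw [ph_up_1 m x h1] at h
          by_cases h2 : x'.1.j % 2 = 0 ∧ (x'.1.j + 1) * 2 ^ x'.1.i < kk m x'.1.v
          · rw [ph_up_1 m x' h2] at h
            have h3 := congrArg Subtype.val (inr_inj m h)
            have g3 : x.1.j + 1 = x'.1.j + 1 := by
              have h00 := congrArg Node.j h3
              exact h00
            have q1 := congrArg Node.v h3
            have q2 := congrArg Node.i h3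
            exact nr_ext m q1 q2 (by omega)
          · by_cases h3 : (par m x').i < ht m (par m x').v
            · rw [ph_up_2 m x' h2 h3] at h
              exact absurd (inr_inj2 m h) (by simp)
            · rw [ph_up_3 m x' h2 h3] at h
              have h4 := congrArg Subtype.val (inr_inj m h)
              have g3 : x.1.j + 1 = 0 := by
                have h00 := congrArg Node.j h4
                exact h00
              omega
        · by_cases h5 : (par m x).i < ht m (par m x).v
          · rw [ph_up_2 m x h1 h5] at h
            by_cases h2 : x'.1.j % 2 = 0 ∧ (x'.1.j + 1) * 2 ^ x'.1.i < kk m x'.1.v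
            · rw [ph_up_1 m x' h2] at h
              exact absurd (inr_inj2 m h) (by simp)
            · by_cases h3 : (par m x').i < ht m (par m x').v
              · rw [ph_up_2 m x' h2 h3] at h
                have h4 := congrArg Subtype.val (inr_inj m h)
                have g1 : x.1.v = x'.1.v := by
                  have h00 := congrArg Node.v h4
                  exact h00
                have g2 : x.1.i + 1 = x'.1.i + 1 := by
                  have h00 := congrArg Node.i h4
                  exact h00
                have g3 : x.1.j / 2 = x'.1.j / 2 := by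
                  have h00 := congrArg Node.j h4
                  exact h00
                have g4 : x.1.i = x'.1.i := by omega
                refine nr_ext m g1 g4 ?_
                by_contra hc
                rcases Nat.lt_or_gt_of_ne hc with h6 | h6
                · apply h1
                  have h7 : x.1.j + 1 = x'.1.j := by omega
                  refine ⟨by omega, ?_⟩
                  rw [h7, g4, g1]
                  exact x'.1.hj
                · apply h2
                  have h7 : x'.1.j + 1 = x.1.j := by omega
                  refine ⟨by omega, ?_⟩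
                  rw [h7, ← g4, ← g1]
                  exact x.1.hj
              · rw [ph_up_3 m x' h2 h3] at h
                exact absurd (inr_inj2 m h) (by simp)
          · rw [ph_up_3 m x h1 h5] at h
            by_cases h2 : x'.1.j % 2 = 0 ∧ (x'.1.j + 1) * 2 ^ x'.1.i < kk m x'.1.v
            · rw [ph_up_1 m x' h2] at h
              have h4 := congrArg Subtype.val (inr_inj m h)
              have g3 : 0 = x'.1.j + 1 := by
                have h00 := congrArg Node.j h4
                exact h00
              omega
            · by_cases h3 : (par m x').i < ht m (par m x').v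
              · rw [ph_up_2 m x' h2 h3] at h
                exact absurd (inr_inj2 m h) (by simp)
              · rw [ph_up_3 m x' h2 h3] at h
                have h4 := congrArg Subtype.val (inr_inj m h)
                have g1 : x.1.v = x'.1.v := by
                  have h00 := congrArg Node.v h4
                  exact h00
                have g2 : x.1.i = x'.1.i := by
                  have h00 := congrArg Node.i h4
                  exact h00
                refine nr_ext m g1 g2 ?_
                rw [top_one m x h1 h5, top_one m x' h2 h3]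
      rw [hx]

/-- If both ends of a dart have degree one, its face has degree two. -/
theorem fdeg_two (d : D) (h1 : m.rot d = d) (h2 : m.rot (m.opp d) = m.opp d) : m.fdeg d ≤ 2 := by
  have hf1 : m.face d = m.opp d := h2
  have hf2 : m.face (m.opp d) = d := by
    show m.rot (m.opp (m.opp d)) = d
    rw [m.opp_opp, h1]
  have key : ∀ n : ℕ, (m.face ^ n) d = d ∨ (m.face ^ n) d = m.opp d := by
    intro n
    induction n with
    | zero => left; rfl
    | succ n ih =>
      rw [pow_succ']
      simp only [Equiv.Perm.mul_apply]
      rcases ih with ih | ih <;> rw [ih]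
      · right; exact hf1
      · left; exact hf2
  unfold RMap.fdeg
  have : Nat.card {d' : D // m.face.SameCycle d d'} ≤ Nat.card (Fin 2) := by
    classical
    refine Nat.card_le_card_of_injective
      (fun x => if x.1 = d then (0 : Fin 2) else 1) ?_
    intro x y hxy
    have hx := x.2.exists_nat_pow_eq
    have hy := y.2.exists_nat_pow_eq
    obtain ⟨n, hn⟩ := hx
    obtain ⟨n', hn'⟩ := hy
    have hx' := key n
    have hy' := key n'
    rw [hn] at hx'
    rw [hn'] at hy'
    apply Subtype.ext
    simp only at hxy
    by_cases hxd : x.1 = d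
    · by_cases hyd : y.1 = d
      · rw [hxd, hyd]
      · rw [if_pos hxd, if_neg hyd] at hxy
        exact absurd hxy (by simp)
    · by_cases hyd : y.1 = d
      · rw [if_neg hxd, if_pos hyd] at hxy
        exact absurd hxy (by simp)
      · rcases hx' with hx' | hx'
        · exact absurd hx' hxd
        · rcases hy' with hy' | hy'
          · exact absurd hy' hyd
          · rw [hx', hy']
  simpa using this

theorem rot_fix (d : D) (h : ¬ 0 < ht m (m.tail d)) : m.rot d = d := by
  have h2 := kk_le m (m.tail d)
  have h3 := kk_pos m (m.tail d)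
  have h4 : ht m (m.tail d) = 0 := by omega
  rw [h4] at h2
  simp at h2
  apply idx_inj m (tail_rot m _)
  have h5 := idx_lt m (m.rot d)
  have h6 := idx_lt m d
  rw [tail_rot] at h5
  omega

theorem ph2' (hf : ∀ d, 3 ≤ m.fdeg d) (e : DD m) : ph' m (ph' m e) ≠ e := by
  intro h
  rcases e with d | ⟨x, b⟩
  · by_cases h1 : 0 < ht m (m.tail (m.opp d))
    · rw [ph_in_1 m d h1] at h
      by_cases h2 : (leaf m (m.opp d)).j % 2 = 0 ∧
          ((leaf m (m.opp d)).j + 1) * 2 ^ (leaf m (m.opp d)).i < kk m (leaf m (m.opp d)).v
      · rw [ph_up_1 m ⟨leaf m (m.opp d), h1⟩ h2] at h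
        exact absurd h (by simp)
      · by_cases h3 : (par m ⟨leaf m (m.opp d), h1⟩).i < ht m (par m ⟨leaf m (m.opp d), h1⟩).v
        · rw [ph_up_2 m ⟨leaf m (m.opp d), h1⟩ h2 h3] at h
          exact absurd h (by simp)
        · rw [ph_up_3 m ⟨leaf m (m.opp d), h1⟩ h2 h3] at h
          exact absurd h (by simp)
    · rw [ph_in_2 m d h1] at h
      by_cases h2 : 0 < ht m (m.tail (m.opp (m.opp d)))
      · rw [ph_in_1 m _ h2] at h
        exact absurd h (by simp)
      · have g1 := rot_fix m (m.opp d) h1
        have g2 := rot_fix m (m.opp (m.opp d)) h2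
        rw [m.opp_opp] at g2
        have := fdeg_two m d g2 g1
        have := hf d
        omega
  · cases b
    · by_cases h1 : 0 < x.1.i
      · rw [ph_dn_1 m x h1] at h
        by_cases h2 : 0 < (ch m x.1 h1).1.i
        · rw [ph_dn_1 m _ h2] at h
          have h3 := congrArg Subtype.val (inr_inj m h)
          have h4 : x.1.i - 1 - 1 = x.1.i := by
            have h00 := congrArg Node.i h3
            exact h00
          omega
        · rw [ph_dn_2 m _ h2] at h
          exact absurd h (by simp)
      · rw [ph_dn_2 m x h1] at h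
        by_cases h2 : 0 < ht m (m.tail (m.opp (dart m x.1.v x.1.j)))
        · rw [ph_in_1 m _ h2] at h
          exact absurd (inr_inj2 m h) (by simp)
        · rw [ph_in_2 m _ h2] at h
          exact absurd h (by simp)
    · by_cases h1 : x.1.j % 2 = 0 ∧ (x.1.j + 1) * 2 ^ x.1.i < kk m x.1.v
      · rw [ph_up_1 m x h1] at h
        by_cases h2 : 0 < (sib m x h1.2).1.i
        · rw [ph_dn_1 m _ h2] at h
          exact absurd (inr_inj2 m h) (by simp)
        · rw [ph_dn_2 m _ h2] at h
          exact absurd h (by simp)
      · by_cases h3 : (par m x).i < ht m (par m x).v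
        · rw [ph_up_2 m x h1 h3] at h
          by_cases h4 : (par m x).j % 2 = 0 ∧
              ((par m x).j + 1) * 2 ^ (par m x).i < kk m (par m x).v
          · rw [ph_up_1 m ⟨par m x, h3⟩ h4] at h
            exact absurd (inr_inj2 m h) (by simp)
          · by_cases h5 : (par m ⟨par m x, h3⟩).i < ht m (par m ⟨par m x, h3⟩).v
            · rw [ph_up_2 m ⟨par m x, h3⟩ h4 h5] at h
              have h6 := congrArg Subtype.val (inr_inj m h)
              have h7 : x.1.i + 1 + 1 = x.1.i := by
                have h00 := congrArg Node.i h6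
                exact h00
              omega
            · rw [ph_up_3 m ⟨par m x, h3⟩ h4 h5] at h
              exact absurd (inr_inj2 m h) (by simp)
        · rw [ph_up_3 m x h1 h3] at h
          by_cases h2 : 0 < (fst m x).1.i
          · rw [ph_dn_1 m _ h2] at h
            exact absurd (inr_inj2 m h) (by simp)
          · rw [ph_dn_2 m _ h2] at h
            exact absurd h (by simp)

end

end QR33
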