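import Pool.Agent.Helper33.QR.Tree2

/-!
# The tree blow-up of a map: connectedness, Euler characteristic, degrees
-/

namespace QR33

open QR

noncomputable section

set_option linter.unusedSectionVars false

variable {D : Type} [Finite D] (m : RMap D)

theorem kk_le_card (v : m.Vert) : kk m v ≤ Nat.card D := by
  rw [← card_tail m v]
  exact Finite.card_subtype_le _

theorem ht_le (v : m.Vert) : ht m v ≤ Nat.card D := by
  have h1 : ht m v ≤ kk m v := by
    by_contra hc
    push Not at hc
    have h2 := lt_kk m v hc
    have h3 : kk m v < 2 ^ kk m v := Nat.lt_two_pow_self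
    omega
  exact h1.trans (kk_le_card m v)

instance : Finite m.Vert := by unfold RMap.Vert; infer_instance

instance : Finite m.Face := by unfold RMap.Face; infer_instance

instance : Finite (Node m) := by
  have : Function.Injective (fun x : Node m =>
      ((x.v, (⟨x.i, Nat.lt_succ_of_le (x.hi.trans (ht_le m x.v))⟩ : Fin (Nat.card D + 1)),
        (⟨x.j, by
          have h1 := x.hj
          have h2 := kk_le_card m x.v
          have h3 : x.j ≤ x.j * 2 ^ x.i := Nat.le_mul_of_pos_right _ (by positivity)
          omega⟩ : Fin (Nat.card D))) :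
        m.Vert × Fin (Nat.card D + 1) × Fin (Nat.card D))) := by
    intro x y h
    simp only [Prod.mk.injEq, Fin.mk.injEq] at h
    ext
    · exact h.1
    · exact h.2.1
    · exact h.2.2
  exact Finite.of_injective _ this

theorem root_eq (x : Node m) (h : ¬ x.i < ht m x.v) : x = root m x.v := by
  have h1 := x.hi
  have h2 : x.i = ht m x.v := by omega
  have h3 := x.hj
  have h4 := kk_le m x.v
  ext
  · rfl
  · exact h2
  · show x.j = 0
    rw [h2] at h3
    by_contra hc
    have h5 : 1 * 2 ^ ht m x.v ≤ x.j * 2 ^ ht m x.v := Nat.mul_le_mul_right _ (by omega)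
    omega

/-- The roots are the old vertices. -/
def rootEquiv : {x : Node m // ¬ x.i < ht m x.v} ≃ m.Vert where
  toFun x := x.1.v
  invFun v := ⟨root m v, by simp [root]⟩
  left_inv x := by
    apply Subtype.ext
    exact (root_eq m x.1 x.2).symm
  right_inv v := rfl

theorem card_node : Nat.card (Node m) = Nat.card (NR m) + Nat.card m.Vert := by
  classical
  rw [← Nat.card_congr (rootEquiv m), ← Nat.card_sum]
  exact (Nat.card_congr (Equiv.sumCompl (fun x : Node m => x.i < ht m x.v))).symm

theorem card_DD : Nat.card (DD m) = Nat.card D + 2 * Nat.card (NR m) := by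
  rw [Nat.card_sum, Nat.card_prod]
  have : Nat.card Bool = 2 := by simp
  rw [this]
  ring

theorem euler' (h : m.Planar) : 2 * (Nat.card (Node m) + Nat.card m.Face) = Nat.card (DD m) + 4 := by
  rw [card_node, card_DD]
  have := h.2.2
  omega

open Classical in
/-- A number for the darts at a node. -/
def code : DD m → Fin 3
  | Sum.inl _ => 0
  | Sum.inr (_, true) => 2
  | Sum.inr (x, false) => if x.1.j % 2 = 0 then 0 else 1

theorem deg3' (v : Node m) : Nat.card {e // tl' m e = v} ≤ 3 := by
  have : Nat.card {e // tl' m e = v} ≤ Nat.card (Fin 3) := by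
    refine Nat.card_le_card_of_injective (fun e => code m e.1) ?_
    rintro ⟨e, he⟩ ⟨e', he'⟩ h
    apply Subtype.ext
    simp only at h ⊢
    rw [← he'] at he
    rcases e with d | ⟨x, b⟩ <;> rcases e' with d' | ⟨x', b'⟩
    · rw [leaf_inj m he]
    · cases b'
      · have h1 : 0 = x'.1.i + 1 := by
          have h00 := congrArg Node.i he
          exact h00
        omega
      · exact absurd h (by simp [code])
    · cases b
      · have h1 : x.1.i + 1 = 0 := by
          have h00 := congrArg Node.i he
          exact h00
        omega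
      · exact absurd h (by simp [code])
    · cases b <;> cases b'
      · have g1 : x.1.v = x'.1.v := by
          have h00 := congrArg Node.v he
          exact h00
        have g2 : x.1.i + 1 = x'.1.i + 1 := by
          have h00 := congrArg Node.i he
          exact h00
        have g3 : x.1.j / 2 = x'.1.j / 2 := by
          have h00 := congrArg Node.j he
          exact h00
        have g4 : x.1.j % 2 = x'.1.j % 2 := by
          simp only [code] at h
          by_cases h1 : x.1.j % 2 = 0
          · by_cases h2 : x'.1.j % 2 = 0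
            · omega
            · rw [if_pos h1, if_neg h2] at h
              exact absurd h (by simp)
          · by_cases h2 : x'.1.j % 2 = 0
            · rw [if_neg h1, if_pos h2] at h
              exact absurd h (by simp)
            · omega
        have : x = x' := nr_ext m g1 (by omega) (by omega)
        rw [this]
      · exfalso
        simp only [code] at h
        split_ifs at h <;> exact absurd h (by simp)
      · exfalso
        simp only [code] at h
        split_ifs at h <;> exact absurd h (by simp)
      · have : x = x' := Subtype.ext he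
        rw [this]
  simpa using this

/-- The first child of the parent. -/
def fc0 (x : NR m) : NR m :=
  ⟨⟨x.1.v, x.1.i, 2 * (x.1.j / 2), x.1.hi, by
    refine lt_of_le_of_lt ?_ x.1.hj
    apply Nat.mul_le_mul_right
    omega⟩, x.2⟩

section conn

variable (P : DD m → Prop) (hp : ∀ e, P e → P (ph' m e)) (ho : ∀ e, P e → P (op' m e))

include hp ho

theorem c_up (x : NR m) (h : P (Sum.inr (x, true))) (hi : 0 < x.1.i) :
    P (Sum.inr (ch m x.1 hi, false)) := by
  have h1 := hp _ (ho _ h)
  have h2 : op' m (Sum.inr (x, true)) = Sum.inr (x, false) := rfl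
  rw [h2, ph_dn_1 m x hi] at h1
  exact h1

/-- From the last child to the upward dart of the parent, or to the first child. -/
theorem c_last (x : NR m) (h : P (Sum.inr (x, false)))
    (hl : ¬ (x.1.j % 2 = 0 ∧ (x.1.j + 1) * 2 ^ x.1.i < kk m x.1.v)) :
    P (Sum.inr (fc0 m x, false)) ∧
      ∀ h2 : (par m x).i < ht m (par m x).v, P (Sum.inr (⟨par m x, h2⟩, true)) := by
  have h1 := hp _ (ho _ h)
  have h2 : op' m (Sum.inr (x, false)) = Sum.inr (x, true) := rfl
  rw [h2] at h1
  by_cases h3 : (par m x).i < ht m (par m x).v
  · rw [ph_up_2 m x hl h3] at h1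
    refine ⟨?_, fun _ => h1⟩
    have h4 := c_up m P hp ho ⟨par m x, h3⟩ h1 (Nat.succ_pos _)
    have h5 : ch m (par m x) (Nat.succ_pos _) = fc0 m x := by
      apply nr_ext
      · rfl
      · show x.1.i + 1 - 1 = x.1.i
        omega
      · rfl
    rw [h5] at h4
    exact h4
  · rw [ph_up_3 m x hl h3] at h1
    refine ⟨?_, fun h => absurd h h3⟩
    have h5 : fst m x = fc0 m x := by
      apply nr_ext
      · rfl
      · rfl
      · show 0 = 2 * (x.1.j / 2)
        have := (top_j m x h3).2
        omega
    rw [h5] at h1
    exact h1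

theorem c_fc0 (x : NR m) : P (Sum.inr (x, false)) ↔ P (Sum.inr (fc0 m x, false)) := by
  by_cases hj : x.1.j % 2 = 0
  · have : fc0 m x = x := by
      apply nr_ext
      · rfl
      · rfl
      · show 2 * (x.1.j / 2) = x.1.j
        omega
    rw [this]
  · constructor
    · intro h
      exact (c_last m P hp ho x h (fun hc => hj hc.1)).1
    · intro h
      have h1 := hp _ (ho _ h)
      have h2 : op' m (Sum.inr (fc0 m x, false)) = Sum.inr (fc0 m x, true) := rfl
      have h3 : (fc0 m x).1.j % 2 = 0 ∧
          ((fc0 m x).1.j + 1) * 2 ^ (fc0 m x).1.i < kk m (fc0 m x).1.v := by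
        constructor
        · show (2 * (x.1.j / 2)) % 2 = 0
          omega
        · show (2 * (x.1.j / 2) + 1) * 2 ^ x.1.i < kk m x.1.v
          have h4 : 2 * (x.1.j / 2) + 1 = x.1.j := by omega
          rw [h4]
          exact x.1.hj
      rw [h2, ph_up_1 m _ h3] at h1
      have h5 : sib m (fc0 m x) h3.2 = x := by
        apply nr_ext
        · rfl
        · rfl
        · show 2 * (x.1.j / 2) + 1 = x.1.j
          omega
      rw [h5] at h1
      exact h1

theorem c_dn_up (x : NR m) (h : P (Sum.inr (x, false)))
    (h2 : (par m x).i < ht m (par m x).v) : P (Sum.inr (⟨par m x, h2⟩, true)) := by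
  by_cases hl : x.1.j % 2 = 0 ∧ (x.1.j + 1) * 2 ^ x.1.i < kk m x.1.v
  · have h1 := hp _ (ho _ h)
    have h3 : op' m (Sum.inr (x, false)) = Sum.inr (x, true) := rfl
    rw [h3, ph_up_1 m _ hl] at h1
    have h4 : ¬ ((sib m x hl.2).1.j % 2 = 0 ∧ ((sib m x hl.2).1.j + 1) *
        2 ^ (sib m x hl.2).1.i < kk m (sib m x hl.2).1.v) := by
      intro hc
      have h5 : (x.1.j + 1) % 2 = 0 := hc.1
      omega
    have h6 : par m (sib m x hl.2) = par m x := by
      ext
      · rfl
      · rfl
      · show (x.1.j + 1) / 2 = x.1.j / 2
        omega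
    have h7 : (par m (sib m x hl.2)).i < ht m (par m (sib m x hl.2)).v := by rw [h6]; exact h2
    have h8 := (c_last m P hp ho _ h1 h4).2 h7
    have h9 : (⟨par m (sib m x hl.2), h7⟩ : NR m) = ⟨par m x, h2⟩ := Subtype.ext h6
    rw [h9] at h8
    exact h8
  · exact (c_last m P hp ho x h hl).2 h2

/-- All darts at a node are in `P` if one is. -/
theorem c_node (e e' : DD m) (h : tl' m e = tl' m e') (he : P e) : P e' := by
  have hin : ∀ (d : D) (x : NR m), leaf m d = x.1 → (P (Sum.inl d) → P (Sum.inr (x, true))) ∧
      (P (Sum.inr (x, true)) → P (Sum.inl d)) := by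
    intro d x hx
    constructor
    · intro h1
      have h2 := hp _ (ho _ h1)
      have h3 : op' m (Sum.inl d) = Sum.inl (m.opp d) := rfl
      have h4 : 0 < ht m (m.tail (m.opp (m.opp d))) := by
        rw [m.opp_opp]
        have h5 := x.2
        have h6 : m.tail d = x.1.v := by
          have h00 := congrArg Node.v hx
          exact h00
        rw [h6]
        omega
      rw [h3, ph_in_1 m _ h4] at h2
      have h7 : (⟨leaf m (m.opp (m.opp d)), h4⟩ : NR m) = x := by
        apply Subtype.ext
        show leaf m (m.opp (m.opp d)) = x.1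
        rw [m.opp_opp]
        exact hx
      rw [h7] at h2
      exact h2
    · intro h1
      have h2 := hp _ (ho _ h1)
      have h3 : op' m (Sum.inr (x, true)) = Sum.inr (x, false) := rfl
      have h4 : x.1.i = 0 := by
        have h00 := congrArg Node.i hx
        exact h00.symm
      rw [h3, ph_dn_2 m x (by omega)] at h2
      have h5 : dart m x.1.v x.1.j = d := by
        apply leaf_inj m
        rw [leaf_dart' m x.1 h4, hx]
      rw [h5] at h2
      exact h2
  rcases e with d | ⟨x, b⟩ <;> rcases e' with d' | ⟨x', b'⟩
  · rw [leaf_inj m h] at he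
    exact he
  · cases b'
    · exfalso
      have h1 : 0 = x'.1.i + 1 := by
        have h00 := congrArg Node.i h
        exact h00
      omega
    · exact (hin d x' h).1 he
  · cases b
    · exfalso
      have h1 : x.1.i + 1 = 0 := by
        have h00 := congrArg Node.i h
        exact h00
      omega
    · exact (hin d' x h.symm).2 he
  · cases b <;> cases b'
    · have g1 : x.1.v = x'.1.v := by
        have h00 := congrArg Node.v h
        exact h00
      have g2 : x.1.i + 1 = x'.1.i + 1 := by
        have h00 := congrArg Node.i h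
        exact h00
      have g3 : x.1.j / 2 = x'.1.j / 2 := by
        have h00 := congrArg Node.j h
        exact h00
      rw [c_fc0 m P hp ho] at he ⊢
      have : fc0 m x = fc0 m x' := by
        apply nr_ext
        · exact g1
        · show x.1.i = x'.1.i
          omega
        · show 2 * (x.1.j / 2) = 2 * (x'.1.j / 2)
          omega
      rw [← this]
      exact he
    · have h2 : par m x = x'.1 := h
      have h3 : (par m x).i < ht m (par m x).v := by rw [h2]; exact x'.2
      have h4 := c_dn_up m P hp ho x he h3
      have h5 : (⟨par m x, h3⟩ : NR m) = x' := Subtype.ext h2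
      rw [h5] at h4
      exact h4
    · have h2 : x.1 = par m x' := h
      have hi : 0 < x.1.i := by rw [h2]; exact Nat.succ_pos _
      have h4 := c_up m P hp ho x he hi
      rw [c_fc0 m P hp ho]
      have h5 : ch m x.1 hi = fc0 m x' := by
        apply nr_ext
        · show x.1.v = x'.1.v
          rw [h2]; rfl
        · show x.1.i - 1 = x'.1.i
          rw [h2]; rfl
        · show 2 * x.1.j = 2 * (x'.1.j / 2)
          rw [h2]; rfl
      rw [← h5]
      exact h4
    · have : x = x' := Subtype.ext h
      rw [← this]
      exact he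

/-- `P` at the root gives `P` at all nodes of the tree and conversely. -/
theorem c_tree (_hP : ∃ e, P e) (x : Node m) :
    (∀ e, tl' m e = x → P e) ↔ (∀ e, tl' m e = root m x.v → P e) := by
  have h1 : ∀ y : NR m, (∀ e, tl' m e = y.1 → P e) ↔ (∀ e, tl' m e = par m y → P e) := by
    intro y
    constructor
    · intro h e he
      have h2 : P (Sum.inr (y, true)) := h _ rfl
      have h3 : P (Sum.inr (y, false)) := ho _ h2
      exact c_node m P hp ho (Sum.inr (y, false)) e he.symm h3
    · intro h e he
      have h3 : P (Sum.inr (y, false)) := h _ rfl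
      have h2 : P (Sum.inr (y, true)) := ho _ h3
      exact c_node m P hp ho (Sum.inr (y, true)) e he.symm h2
  have h2 : ∀ (n : ℕ) (x : Node m), ht m x.v - x.i = n →
      ((∀ e, tl' m e = x → P e) ↔ (∀ e, tl' m e = root m x.v → P e)) := by
    intro n
    induction n with
    | zero =>
      intro x hx
      have h3 : ¬ x.i < ht m x.v := by omega
      rw [← root_eq m x h3]
    | succ n ih =>
      intro x hx
      have h3 : x.i < ht m x.v := by omega
      have h4 := h1 ⟨x, h3⟩
      rw [h4]
      exact ih (par m ⟨x, h3⟩) (by
        show ht m x.v - (x.i + 1) = n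
        omega)
  exact h2 _ x rfl

theorem c_all (hm : m.Conn) (hP : ∃ e, P e) : ∀ e, P e := by
  obtain ⟨e0, he0⟩ := hP
  have h0 : ∀ e, tl' m e = tl' m e0 → P e := fun e he => c_node m P hp ho _ _ he.symm he0
  have h1 : ∀ e, tl' m e = root m (tl' m e0).v → P e :=
    (c_tree m P hp ho ⟨e0, he0⟩ _).1 h0
  -- all vertices
  have h2 : ∀ d : D, Relation.ReflTransGen (fun a b => b = m.rot a ∨ b = m.opp a)
      (Quotient.out (tl' m e0).v) d → ∀ e, tl' m e = root m (m.tail d) → P e := by
    intro d hd
    induction hd with
    | refl =>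
      have : m.tail (Quotient.out (tl' m e0).v) = (tl' m e0).v := Quotient.out_eq _
      rw [this]
      exact h1
    | @tail b c _ hbc ih =>
      rcases hbc with hbc | hbc
      · rw [hbc, tail_rot]
        exact ih
      · have h3 : ∀ e, tl' m e = leaf m b → P e :=
          (c_tree m P hp ho ⟨e0, he0⟩ (leaf m b)).2 ih
        have h4 : P (Sum.inl b) := h3 _ rfl
        have h5 : P (Sum.inl c) := by
          have := ho _ h4
          rw [hbc]
          exact this
        exact (c_tree m P hp ho ⟨e0, he0⟩ (leaf m c)).1
          (fun e he => c_node m P hp ho (Sum.inl c) e he.symm h5)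
  intro e
  obtain ⟨d, hd⟩ : ∃ d, m.tail d = (tl' m e).v := ⟨Quotient.out (tl' m e).v, Quotient.out_eq _⟩
  have h3 := h2 d (hm _ d)
  rw [hd] at h3
  exact (c_tree m P hp ho ⟨e0, he0⟩ _).2 h3 e rfl

end conn

/-- The tree blow-up of a planar map whose faces have degree at least three. -/
def lm (h : m.Planar) (hf : ∀ d, 3 ≤ m.fdeg d) : LM (DD m) (Node m) m.Face where
  op := op' m
  ph := ph' m
  tl := tl' m
  fc := fc' m
  op_op := op_op' m
  ph_inj := ph_inj' m
  tl_ph := tl_ph' m
  fc_ph := fc_ph' m
  tl_surj := tl_surj' m
  fc_surj := fc_surj' m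
  ne := ne' m
  simple := simple' m
  ph2 := ph2' m hf
  conn := fun P hP h1 h2 => c_all m P h1 h2 h.2.1 hP
  euler := euler' m h
  deg3 := deg3' m

end

end QR33
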